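import Pool.Agent.Helper40.TF.Defs

/-!
PROJECT TF, module TF-3. The Engel sequence.

`ws_inv`: induction: `w' v' w * (w' v w) = w' v' v w = 1` and similarly on the other side.
`ws_conj`: induction: `u w' u' * u v' u' * u w u' = u (w' v' w) u'`.
`ws_map`: apply the ring homomorphism `φ` to the recursion.
`ws_inter`: `P` intertwines: if `P a = a₁ P` for the four data, then for all terms (induction; `P` any additive map is used only through composition, so state it for linear maps).
-/

set_option autoImplicit false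

namespace Pool.Agent.Helper40.TF

theorem ws_inv {A : Type*} [Ring A] (v v' y y' : A) (h1 : v * v' = 1) (h2 : v' * v = 1) (h3 : y * y' = 1)
    (h4 : y' * y = 1) (k : ℕ) : (ws v v' y y' k).1 * (ws v v' y y' k).2 = 1 ∧
      (ws v v' y y' k).2 * (ws v v' y y' k).1 = 1 := by
  induction k with
  | zero => exact ⟨h3, h4⟩
  | succ k ih =>
    obtain ⟨i1, i2⟩ := ih
    generalize hw : ws v v' y y' k = w at i1 i2
    have e : ws v v' y y' (k + 1) = (w.2 * v' * w.1, w.2 * v * w.1) := by simp only [ws, hw]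
    rw [e]
    refine ⟨?_, ?_⟩
    · calc w.2 * v' * w.1 * (w.2 * v * w.1) = w.2 * v' * (w.1 * w.2) * v * w.1 := by noncomm_ring
        _ = w.2 * (v' * v) * w.1 := by rw [i1]; noncomm_ring
        _ = 1 := by rw [h2, mul_one, i2]
    · calc w.2 * v * w.1 * (w.2 * v' * w.1) = w.2 * v * (w.1 * w.2) * v' * w.1 := by noncomm_ring
        _ = w.2 * (v * v') * w.1 := by rw [i1]; noncomm_ring
        _ = 1 := by rw [h1, mul_one, i2]

theorem ws_conj {A : Type*} [Ring A] (v v' y y' u u' : A) (h1 : u * u' = 1) (h2 : u' * u = 1) (k : ℕ) :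
    ws (u * v * u') (u * v' * u') (u * y * u') (u * y' * u') k =
      (u * (ws v v' y y' k).1 * u', u * (ws v v' y y' k).2 * u') := by
  induction k with
  | zero => rfl
  | succ k ih =>
    generalize hw : ws v v' y y' k = w at ih
    have e : ws v v' y y' (k + 1) = (w.2 * v' * w.1, w.2 * v * w.1) := by simp only [ws, hw]
    rw [e]
    simp only [ws, ih]
    refine Prod.ext ?_ ?_
    · change u * w.2 * u' * (u * v' * u') * (u * w.1 * u') = u * (w.2 * v' * w.1) * u'
      calc u * w.2 * u' * (u * v' * u') * (u * w.1 * u')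
          = u * w.2 * (u' * u) * v' * (u' * u) * w.1 * u' := by noncomm_ring
        _ = u * (w.2 * v' * w.1) * u' := by rw [h2]; noncomm_ring
    · change u * w.2 * u' * (u * v * u') * (u * w.1 * u') = u * (w.2 * v * w.1) * u'
      calc u * w.2 * u' * (u * v * u') * (u * w.1 * u')
          = u * w.2 * (u' * u) * v * (u' * u) * w.1 * u' := by noncomm_ring
        _ = u * (w.2 * v * w.1) * u' := by rw [h2]; noncomm_ring

theorem ws_map {A B : Type*} [Ring A] [Ring B] (φ : A →+* B) (v v' y y' : A) (k : ℕ) :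
    ws (φ v) (φ v') (φ y) (φ y') k = (φ (ws v v' y y' k).1, φ (ws v v' y y' k).2) := by
  induction k with
  | zero => rfl
  | succ k ih => simp only [ws, ih, map_mul]

theorem ws_inter {K V W : Type*} [Field K] [AddCommGroup V] [Module K V] [AddCommGroup W] [Module K W]
    (P : V →ₗ[K] W) (v v' y y' : Module.End K V) (u u' z z' : Module.End K W)
    (h1 : P ∘ₗ v = u ∘ₗ P) (h2 : P ∘ₗ v' = u' ∘ₗ P) (h3 : P ∘ₗ y = z ∘ₗ P) (h4 : P ∘ₗ y' = z' ∘ₗ P) (k : ℕ) :
    P ∘ₗ (ws v v' y y' k).1 = (ws u u' z z' k).1 ∘ₗ P ∧ P ∘ₗ (ws v v' y y' k).2 = (ws u u' z z' k).2 ∘ₗ P := by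
  have comp3 : ∀ (a b c : Module.End K V) (a' b' c' : Module.End K W), P ∘ₗ a = a' ∘ₗ P → P ∘ₗ b = b' ∘ₗ P →
      P ∘ₗ c = c' ∘ₗ P → P ∘ₗ (a * b * c) = (a' * b' * c') ∘ₗ P := by
    intro a b c a' b' c' ha hb hc
    ext x
    have ha' := fun x => LinearMap.congr_fun ha x
    have hb' := fun x => LinearMap.congr_fun hb x
    have hc' := fun x => LinearMap.congr_fun hc x
    simp only [LinearMap.comp_apply] at ha' hb' hc'
    simp only [LinearMap.comp_apply, Module.End.mul_apply, ha', hb', hc']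
  induction k with
  | zero => exact ⟨h3, h4⟩
  | succ k ih =>
    obtain ⟨i1, i2⟩ := ih
    exact ⟨comp3 _ _ _ _ _ _ i2 h2 i1, comp3 _ _ _ _ _ _ i2 h1 i1⟩

end Pool.Agent.Helper40.TF
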