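import Pool.Agent.Helper40.TF.Defs

/-!
PROJECT TF, module TF-4. Polynomial functions of a parameter.

`IsP f`: `f t = ∑ i < N, t ^ i • p i`. Closure properties: constants; sums (take `N = max`, extend coefficients by `0`: `∑ i ∈ range N` of `if i < N₁ then p i else 0`); scalar multiples by `t ^ j` (shift); bilinear images
(`IsP.bilin`: Cauchy product; or: for fixed coefficients `B (t^i • p i) (t^j • q j) = t^(i+j) • B (p i) (q j)`, finite sums of `IsP` functions are `IsP`); linear images; composition with `t ↦ s * t ^ k`.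
`IsP.coeff_mem`: if all values `f t` are in the subspace `W` then all coefficients `p i`, `i < N`, are in `W`: pass to the quotient `V ⧸ W` (so all values are `0`), and apply a coefficient lemma: if `∑ i < N, t ^ i • q i = 0` for all `t` in an
infinite set then `q i = 0` for all `i < N`: Vandermonde (`Matrix.det_vandermonde_ne_zero_iff`) or Lagrange interpolation, or apply functionals: choose a basis / use that a nonzero vector is detected by a linear functional
(`Module.Dual`, `Module.forall_dual_apply_eq_zero_iff K`) and `Polynomial.eq_zero_of_infinite_isRoot`.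
`coeff_zero`: as said. `IsP.zero_at`: `f t = 0` for all `t ≠ 0` gives (coefficients vanish by `coeff_zero` on the infinite set `{t ≠ 0}`) `f 0 = 0`.
`ev_inj`: `ev K t P = ∑ i, t ^ i • P.coeff i`. `ev_X`, `ev_C`: unfold `Polynomial.eval₂RingHom'`.
-/

set_option autoImplicit false

namespace Pool.Agent.Helper40.TF

open Finset

variable {K V W U : Type*} [Field K] [CharZero K] [AddCommGroup V] [Module K V] [AddCommGroup W] [Module K W]
  [AddCommGroup U] [Module K U]

private theorem ext_sum {K V : Type*} [Field K] [AddCommGroup V] [Module K V] (N M : ℕ) (h : N ≤ M)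
    (p : ℕ → V) (t : K) :
    ∑ i ∈ range M, t ^ i • (if i < N then p i else 0) = ∑ i ∈ range N, t ^ i • p i := by
  have h1 : ∑ i ∈ range N, t ^ i • p i = ∑ i ∈ range N, t ^ i • (if i < N then p i else 0) := by
    refine Finset.sum_congr rfl fun i hi => ?_
    rw [if_pos (Finset.mem_range.1 hi)]
  rw [h1]
  symm
  refine Finset.sum_subset (Finset.range_mono h) fun i _ hi => ?_
  rw [if_neg (fun hh => hi (Finset.mem_range.2 hh)), smul_zero]

theorem coeff_zero (N : ℕ) (p : ℕ → V) (h : ∀ t : K, t ≠ 0 → ∑ i ∈ range N, t ^ i • p i = 0) :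
    ∀ i < N, p i = 0 := by
  intro i hi
  rw [← Module.forall_dual_apply_eq_zero_iff K]
  intro φ
  have hz : (∑ j ∈ range N, Polynomial.C (φ (p j)) * Polynomial.X ^ j : Polynomial K) = 0 := by
    apply Polynomial.eq_zero_of_infinite_isRoot
    refine Set.Infinite.mono (s := {x : K | x ≠ 0}) ?_ ?_
    · intro t ht
      show Polynomial.eval t _ = 0
      have h1 := congrArg φ (h t ht)
      rw [map_sum, map_zero] at h1
      rw [Polynomial.eval_finsetSum, ← h1]
      refine Finset.sum_congr rfl fun j _ => ?_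
      rw [map_smul, smul_eq_mul, Polynomial.eval_mul, Polynomial.eval_C, Polynomial.eval_pow,
        Polynomial.eval_X, mul_comm]
    · have : ({x : K | x ≠ 0} : Set K) = ({0} : Set K)ᶜ := rfl
      rw [this]
      exact (Set.finite_singleton (0 : K)).infinite_compl
  have h2 := congrArg (fun q => Polynomial.coeff q i) hz
  simp only [Polynomial.finsetSum_coeff, Polynomial.coeff_C_mul_X_pow, Polynomial.coeff_zero] at h2
  rw [Finset.sum_ite_eq, if_pos (Finset.mem_range.2 hi)] at h2
  exact h2

theorem coeff_mem (N : ℕ) (p : ℕ → V) (S : Submodule K V) (h : ∀ t : K, ∑ i ∈ range N, t ^ i • p i ∈ S) :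
    ∀ i < N, p i ∈ S := by
  intro i hi
  have h1 := coeff_zero (K := K) N (fun j => S.mkQ (p j)) (fun t _ => by
    have h2 : S.mkQ (∑ i ∈ range N, t ^ i • p i) = 0 := by
      rw [Submodule.mkQ_apply, Submodule.Quotient.mk_eq_zero]
      exact h t
    rw [map_sum] at h2
    rw [← h2]
    refine Finset.sum_congr rfl fun j _ => ?_
    rw [map_smul]) i hi
  rw [Submodule.mkQ_apply, Submodule.Quotient.mk_eq_zero] at h1
  exact h1

theorem IsP.zero_at (f : K → V) (hf : IsP f) (h : ∀ t, t ≠ 0 → f t = 0) : f 0 = 0 := by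
  obtain ⟨N, p, hp⟩ := hf
  have h1 := coeff_zero (K := K) N p (fun t ht => by rw [← hp t]; exact h t ht)
  rw [hp 0]
  refine Finset.sum_eq_zero fun i hi => ?_
  rw [h1 i (Finset.mem_range.1 hi), smul_zero]

omit [CharZero K] in
theorem IsP.const (v : V) : IsP (fun _ : K => v) :=
  ⟨1, fun _ => v, fun t => by simp⟩

omit [CharZero K] in
theorem IsP.add (f g : K → V) (hf : IsP f) (hg : IsP g) : IsP (fun t => f t + g t) := by
  obtain ⟨N, p, hp⟩ := hf
  obtain ⟨M, q, hq⟩ := hg
  refine ⟨max N M, fun i => (if i < N then p i else 0) + (if i < M then q i else 0), fun t => ?_⟩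
  simp only [smul_add, Finset.sum_add_distrib]
  rw [ext_sum N _ (le_max_left _ _), ext_sum M _ (le_max_right _ _), hp, hq]

omit [CharZero K] in
theorem IsP.pow_smul (j : ℕ) (f : K → V) (hf : IsP f) : IsP (fun t => t ^ j • f t) := by
  obtain ⟨N, p, hp⟩ := hf
  refine ⟨j + N, fun i => if j ≤ i then p (i - j) else 0, fun t => ?_⟩
  show t ^ j • f t = _
  rw [Finset.sum_range_add, hp, Finset.smul_sum]
  have h0 : ∑ x ∈ range j, t ^ x • (if j ≤ x then p (x - j) else 0) = 0 := by
    refine Finset.sum_eq_zero fun i hi => ?_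
    rw [if_neg (not_le.2 (Finset.mem_range.1 hi)), smul_zero]
  rw [h0, zero_add]
  refine Finset.sum_congr rfl fun i _ => ?_
  simp only
  rw [if_pos (Nat.le_add_right j i), Nat.add_sub_cancel_left, smul_smul, pow_add]

omit [CharZero K] in
theorem IsP.smul (c : K) (f : K → V) (hf : IsP f) : IsP (fun t => c • f t) := by
  obtain ⟨N, p, hp⟩ := hf
  refine ⟨N, fun i => c • p i, fun t => ?_⟩
  show c • f t = _
  rw [hp, Finset.smul_sum]
  refine Finset.sum_congr rfl fun i _ => ?_
  rw [smul_comm]

omit [CharZero K] in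
theorem IsP.sum {ι : Type*} (s : Finset ι) (f : ι → K → V) (hf : ∀ i ∈ s, IsP (f i)) :
    IsP (fun t => ∑ i ∈ s, f i t) := by
  classical
  induction s using Finset.induction_on with
  | empty =>
    simp only [Finset.sum_empty]
    exact IsP.const 0
  | insert a s ha ih =>
    simp only [Finset.sum_insert ha]
    exact IsP.add _ _ (hf a (Finset.mem_insert_self _ _))
      (ih fun i hi => hf i (Finset.mem_insert_of_mem hi))

omit [CharZero K] in
theorem IsP.lin (B : V →ₗ[K] W) (f : K → V) (hf : IsP f) : IsP (fun t => B (f t)) := by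
  obtain ⟨N, p, hp⟩ := hf
  refine ⟨N, fun i => B (p i), fun t => ?_⟩
  show B (f t) = _
  rw [hp, map_sum]
  refine Finset.sum_congr rfl fun i _ => ?_
  rw [map_smul]

omit [CharZero K] in
theorem IsP.bilin (B : V →ₗ[K] W →ₗ[K] U) (f : K → V) (g : K → W) (hf : IsP f) (hg : IsP g) :
    IsP (fun t => B (f t) (g t)) := by
  obtain ⟨N, p, hp⟩ := hf
  have h1 : (fun t => B (f t) (g t)) = fun t => ∑ i ∈ range N, t ^ i • B (p i) (g t) := by
    funext t
    rw [hp, map_sum, LinearMap.sum_apply]
    refine Finset.sum_congr rfl fun i _ => ?_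
    rw [map_smul, LinearMap.smul_apply]
  rw [h1]
  exact IsP.sum _ _ fun i _ => IsP.pow_smul i _ (IsP.lin (B (p i)) g hg)

omit [CharZero K] in
theorem IsP.comp_pow (c : K) (j : ℕ) (f : K → V) (hf : IsP f) : IsP (fun t => f (c * t ^ j)) := by
  obtain ⟨N, p, hp⟩ := hf
  have h1 : (fun t => f (c * t ^ j)) = fun t => ∑ i ∈ range N, t ^ (j * i) • (c ^ i • p i) := by
    funext t
    rw [hp]
    refine Finset.sum_congr rfl fun i _ => ?_
    rw [smul_smul, mul_pow, pow_mul, mul_comm]
  rw [h1]
  exact IsP.sum _ _ fun i _ => IsP.pow_smul (j * i) _ (IsP.const _)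

omit [CharZero K] in
theorem IsP.mul {A : Type*} [Ring A] [Algebra K A] (f g : K → A) (hf : IsP f) (hg : IsP g) :
    IsP (fun t => f t * g t) :=
  IsP.bilin (LinearMap.mul K A) f g hf hg

omit [CharZero K] in
theorem IsP.ex {A : Type*} [Ring A] [Algebra K A] (N : ℕ) (f : K → A) (hf : IsP f) :
    IsP (fun t => ex K N (f t)) := by
  have hpow : ∀ k : ℕ, IsP (fun t => f t ^ k) := by
    intro k
    induction k with
    | zero =>
      simp only [pow_zero]
      exact IsP.const 1
    | succ k ih =>
      simp only [pow_succ]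
      exact IsP.mul _ _ ih hf
  exact IsP.sum (range N) (fun k t => ((k.factorial : K)⁻¹) • f t ^ k)
    fun k _ => IsP.smul _ _ (hpow k)

omit [CharZero K] in
theorem ev_C {A : Type*} [Ring A] [Algebra K A] (t : K) (a : A) : ev K t (Polynomial.C a) = a := by
  show Polynomial.eval₂ (RingHom.id A) (algebraMap K A t) (Polynomial.C a) = a
  rw [Polynomial.eval₂_C, RingHom.id_apply]

omit [CharZero K] in
theorem ev_X {A : Type*} [Ring A] [Algebra K A] (t : K) : ev K t (Polynomial.X : Polynomial A) = algebraMap K A t := by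
  show Polynomial.eval₂ (RingHom.id A) (algebraMap K A t) Polynomial.X = _
  rw [Polynomial.eval₂_X]

theorem ev_inj {A : Type*} [Ring A] [Algebra K A] (P : Polynomial A) (h : ∀ t : K, ev K t P = 0) : P = 0 := by
  have h1 := coeff_zero (K := K) (P.natDegree + 1) (fun i => P.coeff i) (fun t _ => by
    have h2 : Polynomial.eval₂ (RingHom.id A) (algebraMap K A t) P = 0 := h t
    rw [Polynomial.eval₂_eq_sum_range] at h2
    rw [← h2]
    refine Finset.sum_congr rfl fun i _ => ?_
    rw [RingHom.id_apply, ← map_pow, Algebra.smul_def, Algebra.commutes])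
  have h3 := h1 P.natDegree (Nat.lt_succ_self _)
  exact Polynomial.leadingCoeff_eq_zero.1 h3

omit [CharZero K] in
theorem IsP.exists_poly {A : Type*} [Ring A] [Algebra K A] (f : K → A) (hf : IsP f) :
    ∃ P : Polynomial A, ∀ t : K, ev K t P = f t := by
  obtain ⟨N, p, hp⟩ := hf
  refine ⟨∑ i ∈ range N, Polynomial.C (p i) * Polynomial.X ^ i, fun t => ?_⟩
  rw [hp, map_sum]
  refine Finset.sum_congr rfl fun i _ => ?_
  rw [map_mul, map_pow, ev_C, ev_X, ← map_pow, Algebra.smul_def, Algebra.commutes]

end Pool.Agent.Helper40.TF
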