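import Pool.Agent.Helper40.TF.Defs

/-!
PROJECT TF, module TF-11. Lowest coefficients (pure ring theory).

`Y, Y'` polynomials over a ring `A`, `T Y_0 T = T Y_1 T = 0`, `T Y_2 T = T q T` and the same for `Y'` (subscripts are coefficients). Let `Q_0 = C T`, and multiply alternately on the right by `Y' * C T` and `Y * C T`. Claim: after `m` factors every coefficient of `Q_m`
is of the form `z * T`, the coefficients at `i < 2m` are `0` and the coefficient at `2m` is `T (q T)^m`. Step: `(Q Y C T)_k = ∑_{i+j=k} z_i T Y_j T`, with `T Y_j T = 0` for `j < 2`, so only `i ≥ 2m`, `j ≥ 2`; at `k = 2m + 2`: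
`z_{2m} T Y_2 T = z_{2m} T q T = (T (q T)^m) q T`.
So the coefficient at `4 m` of `C T * (Y' * C T * Y * C T)^m` is `T (q T)^(2m)`.
-/

set_option autoImplicit false

namespace Pool.Agent.Helper40.TF

open Polynomial

/-- all coefficients are in `A * T`, the first ones vanish and the lowest one is known -/
private def LowP {A : Type*} [Ring A] (T q : A) (m : ℕ) (Q : A[X]) : Prop :=
  (∀ k, ∃ z, Q.coeff k = z * T) ∧ (∀ k, k < 2 * m → Q.coeff k = 0) ∧ Q.coeff (2 * m) = T * (q * T) ^ m

private theorem low_step {A : Type*} [Ring A] {T q : A} {Y : A[X]} (h0 : T * Y.coeff 0 * T = 0)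
    (h1 : T * Y.coeff 1 * T = 0) (h2 : T * Y.coeff 2 * T = T * q * T) {m : ℕ} {Q : A[X]}
    (h : LowP T q m Q) : LowP T q (m + 1) (Q * (Y * C T)) := by
  obtain ⟨hz, hlow, hm⟩ := h
  have hc : ∀ k, (Q * (Y * C T)).coeff k =
      ∑ x ∈ Finset.HasAntidiagonal.antidiagonal k, Q.coeff x.1 * (Y.coeff x.2 * T) := by
    intro k
    rw [coeff_mul]
    simp only [coeff_mul_C]
  have hkill : ∀ i j, (i < 2 * m ∨ j < 2) → Q.coeff i * (Y.coeff j * T) = 0 := by
    intro i j hij
    rcases hij with hi | hj
    · rw [hlow i hi, zero_mul]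
    · obtain ⟨z, hz'⟩ := hz i
      have hj' : j = 0 ∨ j = 1 := by omega
      rcases hj' with rfl | rfl
      · rw [hz']
        calc z * T * (Y.coeff 0 * T) = z * (T * Y.coeff 0 * T) := by simp only [mul_assoc]
          _ = 0 := by rw [h0, mul_zero]
      · rw [hz']
        calc z * T * (Y.coeff 1 * T) = z * (T * Y.coeff 1 * T) := by simp only [mul_assoc]
          _ = 0 := by rw [h1, mul_zero]
  refine ⟨fun k => ⟨∑ x ∈ Finset.HasAntidiagonal.antidiagonal k, Q.coeff x.1 * Y.coeff x.2, ?_⟩, fun k hk => ?_, ?_⟩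
  · rw [hc, Finset.sum_mul]
    exact Finset.sum_congr rfl fun x _ => (mul_assoc _ _ _).symm
  · rw [hc]
    refine Finset.sum_eq_zero fun x hx => hkill _ _ ?_
    have := Finset.HasAntidiagonal.mem_antidiagonal.1 hx
    omega
  · rw [hc, Finset.sum_eq_single (2 * m, 2)]
    · obtain ⟨z, hz'⟩ := hz (2 * m)
      show Q.coeff (2 * m) * (Y.coeff 2 * T) = _
      calc Q.coeff (2 * m) * (Y.coeff 2 * T) = z * (T * Y.coeff 2 * T) := by
            rw [hz']
            simp only [mul_assoc]
        _ = (z * T) * (q * T) := by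
            rw [h2]
            simp only [mul_assoc]
        _ = T * (q * T) ^ (m + 1) := by
            rw [← hz', hm, pow_succ, mul_assoc]
    · intro x hx hne
      refine hkill _ _ ?_
      have h3 := Finset.HasAntidiagonal.mem_antidiagonal.1 hx
      by_contra hcon
      apply hne
      ext
      · show x.1 = 2 * m
        omega
      · show x.2 = 2
        omega
    · intro hx
      exact absurd (Finset.HasAntidiagonal.mem_antidiagonal.2 (by show 2 * m + 2 = 2 * (m + 1); ring)) hx

theorem low_coeff {A : Type*} [Ring A] (T q : A) (Y Y' : A[X]) (h0 : T * Y.coeff 0 * T = 0) (h1 : T * Y.coeff 1 * T = 0)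
    (h2 : T * Y.coeff 2 * T = T * q * T) (h0' : T * Y'.coeff 0 * T = 0) (h1' : T * Y'.coeff 1 * T = 0)
    (h2' : T * Y'.coeff 2 * T = T * q * T) (m : ℕ) (h : C T * (Y' * C T * Y * C T) ^ m = 0) :
    T * (q * T) ^ (2 * m) = 0 := by
  have key : ∀ m : ℕ, LowP T q (2 * m) (C T * (Y' * C T * Y * C T) ^ m) := by
    intro m
    induction m with
    | zero =>
      refine ⟨fun k => ?_, fun k hk => absurd hk (by omega), ?_⟩
      · rw [pow_zero, mul_one, coeff_C]
        by_cases hk : k = 0
        · exact ⟨1, by rw [if_pos hk, one_mul]⟩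
        · exact ⟨0, by rw [if_neg hk, zero_mul]⟩
      · simp
    | succ m ih =>
      have h3 := low_step h0 h1 h2 (low_step h0' h1' h2' ih)
      have h4 : C T * (Y' * C T * Y * C T) ^ (m + 1) =
          C T * (Y' * C T * Y * C T) ^ m * (Y' * C T) * (Y * C T) := by
        rw [pow_succ]
        simp only [mul_assoc]
      rw [h4]
      have h5 : 2 * (m + 1) = 2 * m + 1 + 1 := by ring
      rw [h5]
      exact h3
  have h3 := (key m).2.2
  rw [h, coeff_zero] at h3
  exact h3.symm

end Pool.Agent.Helper40.TF
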