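import Pool.Agent.Helper40.TF.Words

/-!
PROJECT TF, module TF-15. Transfer of the Engel relation along intertwining linear maps.

`inter_ex`: `P D ^ k = D' ^ k P`, sum up. `inter_pr`: induction on the list. `erel_surj`: `ws_inter` gives `P ∘ (ws ..).1 = (ws' ..).1 ∘ P` and `P ∘ ex (-a) = ex (-a') ∘ P`; so the two sides of the relation for `T'` agree after composition with the surjective `P`.
`erel_inj`: the two sides of the relation for `T` agree after composition with every `P j`, and the `P j` are jointly injective.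
-/

set_option autoImplicit false

namespace Pool.Agent.Helper40.TF

variable {K V W ι : Type*} [Field K] [AddCommGroup V] [Module K V] [AddCommGroup W] [Module K W]

theorem inter_ex (P : V →ₗ[K] W) (D : Module.End K V) (D' : Module.End K W) (h : P ∘ₗ D = D' ∘ₗ P) (N : ℕ) :
    P ∘ₗ ex K N D = ex K N D' ∘ₗ P := by
  have hpow : ∀ k : ℕ, P ∘ₗ (D ^ k) = (D' ^ k) ∘ₗ P := by
    intro k
    induction k with
    | zero => rfl
    | succ k ih =>
      ext x
      have h1 := LinearMap.congr_fun ih (D x)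
      have h2 := LinearMap.congr_fun h x
      simp only [LinearMap.comp_apply] at h1 h2
      simp only [LinearMap.comp_apply, pow_succ, Module.End.mul_apply, h1, h2]
  ext x
  have hx : ∀ k : ℕ, P ((D ^ k) x) = (D' ^ k) (P x) := fun k => LinearMap.congr_fun (hpow k) x
  simp only [ex, LinearMap.comp_apply, LinearMap.sum_apply, LinearMap.smul_apply, map_sum, map_smul, hx]

theorem inter_pr (P : V →ₗ[K] W) (T : ι → Module.End K V) (T' : ι → Module.End K W)
    (h : ∀ i, P ∘ₗ T i = T' i ∘ₗ P) (N : ℕ) (l : List (ι × K)) : P ∘ₗ pr K N T l = pr K N T' l ∘ₗ P := by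
  induction l with
  | nil => rfl
  | cons p l ih =>
    have hc : P ∘ₗ (p.2 • T p.1) = (p.2 • T' p.1) ∘ₗ P := by
      ext x
      have h2 := LinearMap.congr_fun (h p.1) x
      simp only [LinearMap.comp_apply] at h2
      simp only [LinearMap.comp_apply, LinearMap.smul_apply, map_smul, h2]
    have he := inter_ex P _ _ hc N
    ext x
    have h1 := LinearMap.congr_fun ih x
    have h2 := LinearMap.congr_fun he (pr K N T l x)
    simp only [LinearMap.comp_apply] at h1 h2
    simp only [pr, List.map_cons, List.prod_cons, LinearMap.comp_apply, Module.End.mul_apply] at h1 h2 ⊢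
    rw [h2, h1]

theorem inter_prod (P : V →ₗ[K] W) (T : ι → Module.End K V) (T' : ι → Module.End K W)
    (h : ∀ i, P ∘ₗ T i = T' i ∘ₗ P) (l : List ι) : P ∘ₗ (l.map T).prod = (l.map T').prod ∘ₗ P := by
  induction l with
  | nil => rfl
  | cons p l ih =>
    ext x
    have h1 := LinearMap.congr_fun ih x
    have h2 := LinearMap.congr_fun (h p) ((l.map T).prod x)
    simp only [LinearMap.comp_apply] at h1 h2
    simp only [List.map_cons, List.prod_cons, LinearMap.comp_apply, Module.End.mul_apply, h1, h2]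

theorem erel_surj (P : V →ₗ[K] W) (hP : Function.Surjective P) (T : ι → Module.End K V) (T' : ι → Module.End K W)
    (h : ∀ i, P ∘ₗ T i = T' i ∘ₗ P) (a : Module.End K V) (a' : Module.End K W) (ha : P ∘ₗ a = a' ∘ₗ P) (N n : ℕ)
    (hE : ERel K N n T a) : ERel K N n T' a' := by
  intro l
  have hm : P ∘ₗ (-a) = (-a') ∘ₗ P := by
    rw [LinearMap.comp_neg, LinearMap.neg_comp, ha]
  have key := (ws_inter P _ _ _ _ _ _ _ _ (inter_ex P a a' ha N) (inter_ex P (-a) (-a') hm N)
    (inter_pr P T T' h N l) (inter_pr P T T' h N (li l)) n).1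
  rw [hE l, inter_ex P (-a) (-a') hm N] at key
  refine LinearMap.ext fun w => ?_
  obtain ⟨x, rfl⟩ := hP w
  exact (LinearMap.congr_fun key x).symm

theorem pow_surj (P : V →ₗ[K] W) (hP : Function.Surjective P) (a : Module.End K V) (a' : Module.End K W)
    (ha : P ∘ₗ a = a' ∘ₗ P) (N : ℕ) (h : a ^ N = 0) : a' ^ N = 0 := by
  have hpow : ∀ k : ℕ, ∀ x, P ((a ^ k) x) = (a' ^ k) (P x) := by
    intro k
    induction k with
    | zero => intro x; rfl
    | succ k ih =>
      intro x
      have h2 := LinearMap.congr_fun ha x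
      simp only [LinearMap.comp_apply] at h2
      simp only [pow_succ, Module.End.mul_apply, ih, h2]
  refine LinearMap.ext fun w => ?_
  obtain ⟨x, rfl⟩ := hP w
  rw [← hpow, h]
  simp

theorem erel_inj {J : Type*} {U : J → Type*} [∀ j, AddCommGroup (U j)] [∀ j, Module K (U j)]
    (P : ∀ j, V →ₗ[K] U j) (hP : ∀ x, (∀ j, P j x = 0) → x = 0) (T : ι → Module.End K V)
    (T' : ∀ j, ι → Module.End K (U j)) (h : ∀ j i, P j ∘ₗ T i = T' j i ∘ₗ P j) (a : Module.End K V)
    (a' : ∀ j, Module.End K (U j)) (ha : ∀ j, P j ∘ₗ a = a' j ∘ₗ P j) (N n : ℕ)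
    (hE : ∀ j, ERel K N n (T' j) (a' j)) : ERel K N n T a := by
  intro l
  refine LinearMap.ext fun x => ?_
  rw [← sub_eq_zero]
  refine hP _ fun j => ?_
  have hm : P j ∘ₗ (-a) = (-(a' j)) ∘ₗ P j := by
    rw [LinearMap.comp_neg, LinearMap.neg_comp, ha j]
  have key := (ws_inter (P j) _ _ _ _ _ _ _ _ (inter_ex (P j) a (a' j) (ha j) N)
    (inter_ex (P j) (-a) (-(a' j)) hm N)
    (inter_pr (P j) T (T' j) (h j) N l) (inter_pr (P j) T (T' j) (h j) N (li l)) n).1
  rw [hE j l, ← inter_ex (P j) (-a) (-(a' j)) hm N] at key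
  rw [map_sub, sub_eq_zero]
  exact LinearMap.congr_fun key x

theorem pow_inj {J : Type*} {U : J → Type*} [∀ j, AddCommGroup (U j)] [∀ j, Module K (U j)]
    (P : ∀ j, V →ₗ[K] U j) (hP : ∀ x, (∀ j, P j x = 0) → x = 0) (a : Module.End K V)
    (a' : ∀ j, Module.End K (U j)) (ha : ∀ j, P j ∘ₗ a = a' j ∘ₗ P j) (N : ℕ) (h : ∀ j, a' j ^ N = 0) :
    a ^ N = 0 := by
  have hpow : ∀ j, ∀ k : ℕ, ∀ x, P j ((a ^ k) x) = ((a' j) ^ k) (P j x) := by
    intro j k
    induction k with
    | zero => intro x; rfl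
    | succ k ih =>
      intro x
      have h2 := LinearMap.congr_fun (ha j) x
      simp only [LinearMap.comp_apply] at h2
      simp only [pow_succ, Module.End.mul_apply, ih, h2]
  refine LinearMap.ext fun x => ?_
  refine hP _ fun j => ?_
  rw [hpow, h]
  simp

end Pool.Agent.Helper40.TF
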