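import Pool.Agent.Helper40.TF.Defs

/-!
PROJECT TF, module TF-25. Rationalisation of a torsion-free abelian group.

`V = ℚ ⊗[ℤ] B`, `Φ φ = LinearMap.baseChange ℚ φ` (ring homomorphism: `Module.End.baseChangeHom` or `LinearMap.baseChange_mul`, `baseChange_one`, `baseChange_sub`). `B` torsion-free, so `b ↦ 1 ⊗ b` is injective (torsion-free over a PID is flat, `Module.Flat`, and `ℤ → ℚ` is injective; or use
`IsLocalizedModule`/`LocalizedModule` at the nonzero integers, or a direct argument). If `Φ φ = 0` then `1 ⊗ φ b = 0` for all `b`, so `φ = 0`.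
Any other construction of `V` and `Φ` is fine.
-/

set_option autoImplicit false

namespace Pool.Agent.Helper40.TF

theorem exists_rat (B : Type) [AddCommGroup B] (hB : ∀ (k : ℕ) (b : B), 0 < k → k • b = 0 → b = 0) :
    ∃ (V : Type) (_ : AddCommGroup V) (_ : Module ℚ V) (Φ : Module.End ℤ B →+* Module.End ℚ V),
      Function.Injective Φ := by
  have htf : Module.IsTorsionFree ℤ B := by
    refine ⟨fun r hr => ?_⟩
    have hr0 : r ≠ 0 := hr.ne_zero
    intro x y hxy
    have h1 : r • (x - y) = 0 := by
      rw [smul_sub]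
      exact sub_eq_zero.mpr hxy
    have h2 : r.natAbs • (x - y) = 0 := by
      rcases Int.natAbs_eq r with h | h
      · rw [h, natCast_zsmul] at h1
        exact h1
      · rw [h, neg_smul, natCast_zsmul, neg_eq_zero] at h1
        exact h1
    exact sub_eq_zero.mp (hB _ _ (Int.natAbs_pos.mpr hr0) h2)
  have hfl : Module.Flat ℤ B := inferInstance
  refine ⟨TensorProduct ℤ ℚ B, inferInstance, inferInstance,
    (Module.End.baseChangeHom ℤ ℚ B : Module.End ℤ B →ₐ[ℤ] Module.End ℚ (TensorProduct ℤ ℚ B)).toRingHom,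
    ?_⟩
  exact LinearMap.baseChangeHom_injective (R := ℤ) (M := B) (S := ℚ) (N := B)

end Pool.Agent.Helper40.TF
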