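import Pool.Agent.Helper40.TF.Defs

/-!
PROJECT TF, module TF-24. Class of a group from its unipotent action on a self-centralising abelian normal subgroup.

`cm [] a = a`, `cm (g :: l) a = ⁅g, cm l a⁆`. `A` abelian normal, `C_G(A) = A`, `cm l a = 1` for all `l` of length `m` and `a ∈ A`.
(Here `lowerCentralSeries G k` means `(⊤ : Subgroup G).lowerCentralSeries k`; `open scoped commutatorElement` gives the bracket.)
(a) `cm_append`: `cm (l ++ l') a = cm l (cm l' a)`.
(b) `mem_upper`: if `cm l a = 1` for all `l` of length `j` then `a ∈ upperCentralSeries G j`: induction on `j` for all `a`: for every `g` the element `b = ⁅g, a⁆` satisfies `cm l b = cm (l ++ [g]) a = 1` for `l` of length `j`, so `b ∈ Z_j`, so `a ∈ Z_(j+1)` (`mem_upperCentralSeries_succ_iff`; `⁅a, g⁆` is the inverse of `⁅g, a⁆`).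
So `A ≤ upperCentralSeries G m`.
(c) for `a ∈ A` write `R g` for the endomorphism `a ↦ g a g⁻¹` of `A` (additively), a ring of endomorphisms `Module.End ℤ (Additive A)`; `cm (g :: l) a` corresponds to `(R g - 1) (cm l a)`. Let `J k` be the additive subgroup (`Submodule ℤ`) spanned by the products of at least `k` factors `R g - 1`; `J m = 0`.
Claim: `g ∈ lowerCentralSeries G k → R g - 1 ∈ J (k+1)`: `R ⁅g, h⁆ - 1 = ((R g - 1)(R h - 1) - (R h - 1)(R g - 1)) R (g⁻¹ h⁻¹)`, `J k` is stable under multiplication by `R x = 1 + (R x - 1)`, and for products and inverses of elements. So for `g ∈ lowerCentralSeries G (m-1)`, `R g = 1`, i.e. `g` centralises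
`A`, so `g ∈ A ≤ Z_m`. 
(d) `lowerCentralSeries G (m - 1) ≤ upperCentralSeries G m` implies `upperCentralSeries G (2 m - 1) = ⊤`: `lowerCentralSeries G (m - 1 - j) ≤ upperCentralSeries G (m + j)` by induction on `j` (if `⁅x, g⁆ ∈ Z_i` for all `g` then `x ∈ Z_(i+1)`).
-/

set_option autoImplicit false

namespace Pool.Agent.Helper40.TF

open scoped commutatorElement

/-- Iterated commutators. -/
def cm {G : Type*} [Group G] : List G → G → G
  | [], a => a
  | g :: l, a => ⁅g, cm l a⁆

private theorem cm_append {G : Type*} [Group G] (l l' : List G) (a : G) :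
    cm (l ++ l') a = cm l (cm l' a) := by
  induction l with
  | nil => rfl
  | cons g l ih =>
    change ⁅g, cm (l ++ l') a⁆ = ⁅g, cm l (cm l' a)⁆
    rw [ih]

private theorem mem_upper {G : Type*} [Group G] (j : ℕ) :
    ∀ a : G, (∀ l : List G, l.length = j → cm l a = 1) → a ∈ Subgroup.upperCentralSeries G j := by
  induction j with
  | zero =>
    intro a h
    have h1 : a = 1 := h [] rfl
    rw [h1]
    exact one_mem _
  | succ j ih =>
    intro a h
    rw [Subgroup.mem_upperCentralSeries_succ_iff]
    intro g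
    have h1 : ⁅g, a⁆ ∈ Subgroup.upperCentralSeries G j := by
      refine ih _ fun l hl => ?_
      have h2 := h (l ++ [g]) (by simp [hl])
      rw [cm_append] at h2
      exact h2
    have h3 := inv_mem h1
    rwa [commutatorElement_inv] at h3

private theorem three_mod {G : Type*} [Group G] (N H₁ H₂ H₃ : Subgroup G) [N.Normal]
    (h1 : ⁅⁅H₂, H₃⁆, H₁⁆ ≤ N) (h2 : ⁅⁅H₃, H₁⁆, H₂⁆ ≤ N) : ⁅⁅H₁, H₂⁆, H₃⁆ ≤ N := by
  have key : ∀ H : Subgroup G, H.map (QuotientGroup.mk' N) = ⊥ ↔ H ≤ N := by
    intro H
    rw [Subgroup.map_eq_bot_iff, QuotientGroup.ker_mk']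
  rw [← key] at h1 h2 ⊢
  rw [Subgroup.map_commutator, Subgroup.map_commutator] at h1 h2 ⊢
  exact Subgroup.commutator_commutator_eq_bot_of_rotate h1 h2

private theorem lower_upper {G : Type*} [Group G] (k : ℕ) : ∀ j : ℕ,
    ⁅(⊤ : Subgroup G).lowerCentralSeries k, Subgroup.upperCentralSeries G (j + k + 1)⁆ ≤
      Subgroup.upperCentralSeries G j := by
  induction k with
  | zero =>
    intro j
    rw [Subgroup.commutator_comm]
    exact Subgroup.commutator_upperCentralSeries_top_le G j
  | succ k ih =>
    intro j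
    rw [Subgroup.lowerCentralSeries_succ]
    refine three_mod _ _ _ _ ?_ ?_
    · have h1 : ⁅(⊤ : Subgroup G), Subgroup.upperCentralSeries G (j + (k + 1) + 1)⁆ ≤
          Subgroup.upperCentralSeries G (j + k + 1) := by
        rw [Subgroup.commutator_comm]
        exact Subgroup.commutator_upperCentralSeries_top_le G _
      refine (Subgroup.commutator_mono h1 le_rfl).trans ?_
      rw [Subgroup.commutator_comm]
      exact ih j
    · have h1 : ⁅Subgroup.upperCentralSeries G (j + (k + 1) + 1),
          (⊤ : Subgroup G).lowerCentralSeries k⁆ ≤ Subgroup.upperCentralSeries G (j + 1) := by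
        rw [Subgroup.commutator_comm]
        have h2 := ih (j + 1)
        have h3 : j + 1 + k + 1 = j + (k + 1) + 1 := by omega
        rwa [h3] at h2
      refine (Subgroup.commutator_mono h1 le_rfl).trans ?_
      exact Subgroup.commutator_upperCentralSeries_top_le G j

theorem upper_of_act {G : Type*} [Group G] (A : Subgroup G) (hN : A.Normal) (hA : ∀ a ∈ A, ∀ b ∈ A, a * b = b * a)
    (hs : ∀ g : G, (∀ a ∈ A, g * a = a * g) → g ∈ A) (m : ℕ) (hm : 1 ≤ m)
    (h : ∀ l : List G, l.length = m → ∀ a ∈ A, cm l a = 1) : Subgroup.upperCentralSeries G (2 * m - 1) = ⊤ := by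
  have hAZ : A ≤ Subgroup.upperCentralSeries G m := fun a ha =>
    mem_upper m a fun l hl => h l hl a ha
  have h1 : (⊤ : Subgroup G).lowerCentralSeries (m - 1) ≤ Subgroup.upperCentralSeries G m := by
    intro g hg
    refine hAZ (hs g fun a ha => ?_)
    have h2 := lower_upper (G := G) (m - 1) 0
    have h3 : 0 + (m - 1) + 1 = m := by omega
    rw [h3] at h2
    have h4 := h2 (Subgroup.commutator_mem_commutator hg (hAZ ha))
    rw [Subgroup.upperCentralSeries_zero, Subgroup.mem_bot] at h4
    exact commutatorElement_eq_one_iff_mul_comm.1 h4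
  have h5 : ∀ j : ℕ, j ≤ m - 1 →
      (⊤ : Subgroup G).lowerCentralSeries (m - 1 - j) ≤ Subgroup.upperCentralSeries G (m + j) := by
    intro j
    induction j with
    | zero =>
      intro _
      exact h1
    | succ j ih =>
      intro hj x hx
      have h6 := ih (by omega)
      have h7 : m + (j + 1) = (m + j) + 1 := by omega
      rw [h7, Subgroup.mem_upperCentralSeries_succ_iff]
      intro g
      refine h6 ?_
      have h8 : m - 1 - j = (m - 1 - (j + 1)) + 1 := by omega
      rw [h8, Subgroup.lowerCentralSeries_succ]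
      exact Subgroup.commutator_mem_commutator hx (Subgroup.mem_top g)
  have h9 := h5 (m - 1) le_rfl
  have h10 : m - 1 - (m - 1) = 0 := by omega
  have h11 : m + (m - 1) = 2 * m - 1 := by omega
  rw [h10, h11, Subgroup.lowerCentralSeries_zero] at h9
  exact top_le_iff.1 h9

end Pool.Agent.Helper40.TF
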