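import Pool.Agent.Helper40.TF.Defs

/-!
PROJECT TF, module TF-31. The normal subgroup of elements of order divisible only by primes `≤ P` in a nilpotent group.

Say that `g` is `P`-torsion if `g ^ e = 1` for some `e > 0` all of whose prime divisors are `≤ P`.
(1) Let `Z` be the centre. If `Z` has no element of order `p` (`∀ z ∈ center G, z ^ p = 1 → z = 1`) then: for all `i`, `x ∈ upperCentralSeries G (i+1)` and `x ^ p ∈ upperCentralSeries G i` imply `x ∈ upperCentralSeries G i`. Induction on `i`: `i = 0` is the hypothesis. Step: `x ∈ Z_(i+2)`, `x ^ p ∈ Z_(i+1)`. For `y : G`,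
`⁅x, y⁆ ∈ Z_(i+1)` is central modulo `Z_i`, so `⁅x ^ p, y⁆ ≡ ⁅x, y⁆ ^ p` modulo `Z_i` (work in `G ⧸ upperCentralSeries G i`, where `⁅x, y⁆` is central), and `⁅x ^ p, y⁆ ∈ Z_i`; so `⁅x, y⁆ ^ p ∈ Z_i`, and by induction `⁅x, y⁆ ∈ Z_i` for all `y`, i.e. `x ∈ Z_(i+1)`.
So in a nilpotent group with such a centre `x ^ p = 1` implies `x = 1` (descend from `Z_c = ⊤`).
(2) Let `T` be a maximal element (Zorn; or the supremum) of the set of normal subgroups all of whose elements are `P`-torsion (chains: unions; nonempty: `⊥`). Suppose `p ≤ P` prime and `q ∈ G ⧸ T`, `q ^ p = 1`, `q ≠ 1`. By (1) for the nilpotent group `G ⧸ T` there is `z ≠ 1` in the centre of `G ⧸ T` with `z ^ p = 1`. The subgroup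
`zpowers z` is central, so normal; its preimage `T'` in `G` is normal, strictly larger than `T`, and its elements `g` satisfy `g ^ p ∈ T`, so they are `P`-torsion (`(g ^ p) ^ e = 1`, prime divisors of `p e`). Contradiction.
-/

set_option autoImplicit false

namespace Pool.Agent.Helper40.TF

open scoped commutatorElement

/-- A group identity: the conjugation by a power. -/
private theorem conj_pow_aux {H : Type*} [Group H] (X Y C : H) (hC : ∀ z, C * z = z * C)
    (h : X * Y * X⁻¹ = C * Y) (k : ℕ) : X ^ k * Y * (X ^ k)⁻¹ = C ^ k * Y := by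
  induction k with
  | zero => simp
  | succ k ih =>
    have h1 : X ^ (k + 1) * Y * (X ^ (k + 1))⁻¹ = X * (X ^ k * Y * (X ^ k)⁻¹) * X⁻¹ := by
      rw [pow_succ', mul_inv_rev]
      simp only [mul_assoc]
    have h2 : ∀ z, C ^ k * z = z * C ^ k := by
      intro z
      have h3 : Commute C z := hC z
      exact (h3.pow_left k)
    rw [h1, ih]
    calc X * (C ^ k * Y) * X⁻¹ = C ^ k * (X * Y * X⁻¹) := by
          rw [← mul_assoc X, ← h2 X]
          simp only [mul_assoc]
      _ = C ^ (k + 1) * Y := by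
          rw [h, ← mul_assoc, pow_succ]

private theorem ucs_step {G : Type*} [Group G] (p : ℕ)
    (h : ∀ z ∈ Subgroup.center G, z ^ p = 1 → z = 1) :
    ∀ (i : ℕ) (x : G), x ∈ Subgroup.upperCentralSeries G (i + 1) →
      x ^ p ∈ Subgroup.upperCentralSeries G i → x ∈ Subgroup.upperCentralSeries G i := by
  intro i
  induction i with
  | zero =>
    intro x hx hp
    rw [Subgroup.upperCentralSeries_zero, Subgroup.mem_bot] at hp ⊢
    rw [zero_add, Subgroup.upperCentralSeries_one] at hx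
    exact h x hx hp
  | succ i ih =>
    intro x hx hp
    rw [Subgroup.mem_upperCentralSeries_succ_iff] at hx hp ⊢
    intro y
    refine ih _ (hx y) ?_
    have hc := (Subgroup.mem_upperCentralSeries_succ_iff).1 (hx y)
    set N := Subgroup.upperCentralSeries G i with hN
    have hk : ∀ g : G, (g : G ⧸ N) = 1 ↔ g ∈ N := fun g => QuotientGroup.eq_one_iff g
    have hC : ∀ z : G ⧸ N, ((⁅x, y⁆ : G) : G ⧸ N) * z = z * ((⁅x, y⁆ : G) : G ⧸ N) := by
      intro z
      obtain ⟨z, rfl⟩ := QuotientGroup.mk_surjective z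
      have h1 := (hk _).2 (hc z)
      rw [commutatorElement_def ⁅x, y⁆ z] at h1
      simp only [QuotientGroup.mk_mul, QuotientGroup.mk_inv] at h1
      have h2 := mul_inv_eq_one.1 h1
      exact mul_inv_eq_iff_eq_mul.1 h2
    have hX : (x : G ⧸ N) * (y : G ⧸ N) * (x : G ⧸ N)⁻¹ =
        ((⁅x, y⁆ : G) : G ⧸ N) * (y : G ⧸ N) := by
      rw [commutatorElement_def x y]
      simp only [QuotientGroup.mk_mul, QuotientGroup.mk_inv]
      group
    have h3 := conj_pow_aux _ _ _ hC hX p
    have h4 := (hk _).2 (hp y)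
    rw [commutatorElement_def (x ^ p) y] at h4
    simp only [QuotientGroup.mk_mul, QuotientGroup.mk_inv, QuotientGroup.mk_pow] at h4
    rw [h3, mul_inv_cancel_right] at h4
    rw [← hk, QuotientGroup.mk_pow]
    exact h4

theorem center_torsion {G : Type*} [Group G] [Group.IsNilpotent G] (p : ℕ)
    (h : ∀ z ∈ Subgroup.center G, z ^ p = 1 → z = 1) (x : G) (hx : x ^ p = 1) : x = 1 := by
  obtain ⟨n, hn⟩ := Group.IsNilpotent.nilpotent G
  have key : ∀ i : ℕ, x ∈ Subgroup.upperCentralSeries G i → x = 1 := by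
    intro i
    induction i with
    | zero =>
      intro h0
      rwa [Subgroup.upperCentralSeries_zero, Subgroup.mem_bot] at h0
    | succ i ih =>
      intro h0
      exact ih (ucs_step p h i x h0 (by rw [hx]; exact one_mem _))
  exact key n (by rw [hn]; exact Subgroup.mem_top x)

theorem exists_piTors (P : ℕ) (G : Type*) [Group G] [Group.IsNilpotent G] :
    ∃ T : Subgroup G, ∃ _ : T.Normal,
      (∀ g ∈ T, ∃ e : ℕ, 0 < e ∧ (∀ p, p.Prime → p ∣ e → p ≤ P) ∧ g ^ e = 1) ∧
      (∀ p, p ≤ P → p.Prime → ∀ q : G ⧸ T, q ^ p = 1 → q = 1) := by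
  set S : Set (Subgroup G) := {T | T.Normal ∧
    ∀ g ∈ T, ∃ e : ℕ, 0 < e ∧ (∀ p, p.Prime → p ∣ e → p ≤ P) ∧ g ^ e = 1} with hS
  obtain ⟨T, hT⟩ : ∃ T, Maximal (· ∈ S) T := by
    refine zorn_le₀ S fun c hc hchain => ?_
    rcases c.eq_empty_or_nonempty with rfl | hne
    · refine ⟨⊥, ⟨inferInstance, fun g hg => ⟨1, one_pos, fun p hp hd => ?_, ?_⟩⟩, ?_⟩
      · exact absurd (Nat.dvd_one.1 hd) hp.one_lt.ne'
      · rw [Subgroup.mem_bot] at hg
        rw [hg, one_pow]
      · intro z hz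
        exact absurd hz (Set.notMem_empty z)
    · have hmem : ∀ g : G, g ∈ sSup c ↔ ∃ T ∈ c, g ∈ T := fun g =>
        Subgroup.mem_sSup_of_directedOn hne hchain.directedOn
      refine ⟨sSup c, ⟨⟨fun g hg a => ?_⟩, fun g hg => ?_⟩, fun z hz => le_sSup hz⟩
      · obtain ⟨T, hT, hgT⟩ := (hmem g).1 hg
        exact (hmem _).2 ⟨T, hT, (hc hT).1.conj_mem g hgT a⟩
      · obtain ⟨T, hT, hgT⟩ := (hmem g).1 hg
        exact (hc hT).2 g hgT
  have hTn : T.Normal := hT.prop.1
  refine ⟨T, hTn, hT.prop.2, fun p hpP hp q hq => ?_⟩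
  refine center_torsion p (fun z hz hzp => ?_) q hq
  have hZn : (Subgroup.zpowers z).Normal := by
    refine ⟨fun g hg a => ?_⟩
    obtain ⟨k, rfl⟩ := Subgroup.mem_zpowers_iff.1 hg
    have h1 : a * z = z * a := Subgroup.mem_center_iff.1 hz a
    have h2 : Commute a (z ^ k) := Commute.zpow_right h1 k
    rw [h2.eq, mul_inv_cancel_right]
    exact Subgroup.mem_zpowers_iff.2 ⟨k, rfl⟩
  have hT' : (Subgroup.zpowers z).comap (QuotientGroup.mk' T) ∈ S := by
    refine ⟨hZn.comap _, fun g hg => ?_⟩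
    rw [Subgroup.mem_comap] at hg
    obtain ⟨k, hk⟩ := Subgroup.mem_zpowers_iff.1 hg
    have h1 : ((g ^ p : G) : G ⧸ T) = 1 := by
      have h2 : (g : G ⧸ T) = z ^ k := hk.symm
      rw [QuotientGroup.mk_pow, h2, ← zpow_natCast, ← zpow_mul, mul_comm, zpow_mul, zpow_natCast,
        hzp, one_zpow]
    obtain ⟨e, he, hpr, hge⟩ := hT.prop.2 (g ^ p) ((QuotientGroup.eq_one_iff _).1 h1)
    refine ⟨p * e, Nat.mul_pos hp.pos he, fun r hr hd => ?_, by rw [pow_mul, hge]⟩
    rcases (Nat.Prime.dvd_mul hr).1 hd with h3 | h3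
    · rw [(Nat.prime_dvd_prime_iff_eq hr hp).1 h3]
      exact hpP
    · exact hpr r hr h3
  have hle : T ≤ (Subgroup.zpowers z).comap (QuotientGroup.mk' T) := by
    intro g hg
    rw [Subgroup.mem_comap]
    have h1 : QuotientGroup.mk' T g = 1 := (QuotientGroup.eq_one_iff g).2 hg
    rw [h1]
    exact one_mem _
  have hle' := hT.le_of_ge hT' hle
  obtain ⟨g, rfl⟩ := QuotientGroup.mk_surjective z
  refine (QuotientGroup.eq_one_iff g).2 (hle' ?_)
  rw [Subgroup.mem_comap]
  exact Subgroup.mem_zpowers _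

end Pool.Agent.Helper40.TF
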