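import Pool.Agent.Helper40.TF.AdExp
import Pool.Agent.Helper40.TF.Words

/-!
PROJECT TF, module TF-17. From nilpotent operators to the Lie algebra they generate.

`A` an associative algebra, `T i ^ n = 0`, `L` the Lie subalgebra generated by the `T i` (commutator bracket), `X i ∈ L` the element `T i`.
`span_top`: standard (`LieSubalgebra.lieSpan` of the generators inside itself; compare `LieSubalgebra.subset_lieSpan`, map under the inclusion `L → A`).
`ad_pow`: `(ad (X i)) ^ (2 n) x = ∑_j ± C(2n,j) T_i^(2n-j) x T_i^j = 0` (left and right multiplication commute: `LieAlgebra.ad_nilpotent_of_nilpotent`-like lemma, or induction).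
`adrel`: (1) for `D ^ n = 0`, `D ∈ L`: `(ex K (2n) (ad D) x : A) = ex K n D * x * ex K n (-D)`: `ad D = l - r` with commuting nilpotent `l = mulLeft D`, `r = mulRight D` in `End A`; `ex_add` and `ex K (2n) l = mulLeft (ex K n D)` etc. (`ex_trunc`), and the inclusion
`L → A` intertwines. (2) So `(pr K (2n) (ad ∘ X) l x : A) = pr K n T l * x * pr K n T (li l)` (list induction; `(c • T i) ^ n = 0`). (3) With `(w_k, w'_k) = ws (ex K n (T i)) (ex K n (-T i)) (pr l) (pr (li l)) k` and `(W_k, W'_k)` the corresponding operators on `L`: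
`(W_k x : A) = w_k * x * w'_k`, `(W'_k x : A) = w'_k * x * w_k` (induction). (4) `w_m = ex K n (-T i)`, so its inverse `w'_m = ex K n (T i)` (`ws_inv`, `ex_mul_neg`, and `pr l * pr (li l) = 1`, list induction), so `W_m x = ex (-T i) x ex (T i) = ex K (2n) (-ad (X i)) x`.
-/

set_option autoImplicit false

namespace Pool.Agent.Helper40.TF

open LieAlgebra

attribute [local instance 100] LieRing.ofAssociativeRing
attribute [local instance 100] LieAlgebra.ofAssociativeAlgebra

variable {K A ι : Type*} [Field K] [CharZero K] [Ring A] [Algebra K A]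

omit [CharZero K] in
theorem span_top (T : ι → A) (X : ι → LieSubalgebra.lieSpan K A (Set.range T))
    (hX : ∀ i, (X i : A) = T i) :
    LieSubalgebra.lieSpan K (LieSubalgebra.lieSpan K A (Set.range T)) (Set.range X) = ⊤ := by
  have h1 : LieSubalgebra.lieSpan K A (Set.range T)
      ≤ (LieSubalgebra.lieSpan K (LieSubalgebra.lieSpan K A (Set.range T)) (Set.range X)).map
        (LieSubalgebra.lieSpan K A (Set.range T)).incl := by
    rw [LieSubalgebra.lieSpan_le]
    rintro _ ⟨i, rfl⟩
    exact ⟨X i, LieSubalgebra.subset_lieSpan ⟨i, rfl⟩, hX i⟩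
  rw [eq_top_iff]
  intro x _
  obtain ⟨y, hy, hyx⟩ := h1 x.2
  have : y = x := Subtype.ext hyx
  rw [← this]
  exact hy

omit [CharZero K] in
private theorem ad_pow_A (n : ℕ) (D : A) (hD : D ^ n = 0) : ad K A D ^ (2 * n) = 0 := by
  have h1 : ad K A D = LinearMap.mulLeft K D + LinearMap.mulRight K (-D) := by
    ext x
    change D * x - x * D = D * x + x * (-D)
    rw [mul_neg, sub_eq_add_neg]
  rw [h1]
  have hc : Commute (LinearMap.mulLeft K D) (LinearMap.mulRight K (-D)) :=
    LinearMap.commute_mulLeft_right D (-D)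
  apply hc.add_pow_eq_zero_of_add_le_succ_of_pow_eq_zero (m := n) (n := n)
  · rw [LinearMap.pow_mulLeft, hD, LinearMap.mulLeft_zero_eq_zero]
  · rw [LinearMap.pow_mulRight, neg_pow, hD, mul_zero, LinearMap.mulRight_zero_eq_zero]
  · omega

omit [CharZero K] in
private theorem coe_ad_pow' (S : LieSubalgebra K A) (D x : S) (k : ℕ) :
    (((ad K S D) ^ k) x : A) = ((ad K A (D : A)) ^ k) (x : A) := by
  induction k with
  | zero => rfl
  | succ k ih =>
    rw [pow_succ', pow_succ', Module.End.mul_apply, Module.End.mul_apply, ← ih]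
    rfl

omit [CharZero K] in
theorem ad_pow (n : ℕ) (T : ι → A) (hT : ∀ i, T i ^ n = 0)
    (X : ι → LieSubalgebra.lieSpan K A (Set.range T)) (hX : ∀ i, (X i : A) = T i) (i : ι) :
    ad K (LieSubalgebra.lieSpan K A (Set.range T)) (X i) ^ (2 * n) = 0 := by
  ext x
  rw [coe_ad_pow', hX, ad_pow_A n (T i) (hT i)]
  rfl

/-- part (1) -/
private theorem coe_ex (n : ℕ) (S : LieSubalgebra K A) (D x : S) (hD : (D : A) ^ n = 0) :
    (ex K (2 * n) (ad K S D) x : A) = ex K n (D : A) * (x : A) * ex K n (-(D : A)) := by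
  have h1 : ad K A (D : A) = LinearMap.mulLeft K (D : A) + LinearMap.mulRight K (-(D : A)) := by
    ext x
    change (D : A) * x - x * (D : A) = (D : A) * x + x * (-(D : A))
    rw [mul_neg, sub_eq_add_neg]
  have hc : Commute (LinearMap.mulLeft K (D : A)) (LinearMap.mulRight K (-(D : A))) :=
    LinearMap.commute_mulLeft_right _ _
  have hD' : (-(D : A)) ^ n = 0 := by rw [neg_pow, hD, mul_zero]
  have hL : (LinearMap.mulLeft K (D : A)) ^ n = 0 := by
    rw [LinearMap.pow_mulLeft, hD, LinearMap.mulLeft_zero_eq_zero]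
  have hR : (LinearMap.mulRight K (-(D : A))) ^ n = 0 := by
    rw [LinearMap.pow_mulRight, hD', LinearMap.mulRight_zero_eq_zero]
  have hp : ∀ c : Module.End K A, c ^ n = 0 → c ^ (2 * n) = 0 := fun c hc => by
    rw [two_mul, pow_add, hc, zero_mul]
  have h2 : (ex K (2 * n) (ad K S D) x : A) = ex K (2 * n) (ad K A (D : A)) (x : A) := by
    unfold ex
    rw [LinearMap.sum_apply, LinearMap.sum_apply, AddSubmonoidClass.coe_finsetSum]
    refine Finset.sum_congr rfl fun k _ => ?_
    rw [LinearMap.smul_apply, LinearMap.smul_apply, ← coe_ad_pow' S D x k]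
    rfl
  have h3 : ex K (2 * n) (ad K A (D : A))
      = ex K (2 * n) (LinearMap.mulLeft K (D : A)) * ex K (2 * n) (LinearMap.mulRight K (-(D : A))) := by
    rw [h1]
    apply ex_add
    · exact hc
    · exact hp _ hL
    · exact hp _ hR
    · rw [← h1]
      exact ad_pow_A n _ hD
  have h4 : ex K (2 * n) (LinearMap.mulLeft K (D : A)) = LinearMap.mulLeft K (ex K n (D : A)) := by
    rw [ex_trunc n (2 * n) (by omega) _ hL]
    unfold ex
    ext y
    rw [LinearMap.sum_apply, LinearMap.mulLeft_apply, Finset.sum_mul]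
    refine Finset.sum_congr rfl fun k _ => ?_
    rw [LinearMap.smul_apply, LinearMap.pow_mulLeft, LinearMap.mulLeft_apply, smul_mul_assoc]
  have h5 : ex K (2 * n) (LinearMap.mulRight K (-(D : A)))
      = LinearMap.mulRight K (ex K n (-(D : A))) := by
    rw [ex_trunc n (2 * n) (by omega) _ hR]
    unfold ex
    ext y
    rw [LinearMap.sum_apply, LinearMap.mulRight_apply, Finset.mul_sum]
    refine Finset.sum_congr rfl fun k _ => ?_
    rw [LinearMap.smul_apply, LinearMap.pow_mulRight, LinearMap.mulRight_apply, mul_smul_comm]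
  rw [h2, h3, h4, h5, Module.End.mul_apply, LinearMap.mulRight_apply, LinearMap.mulLeft_apply,
    mul_assoc]

/-- part (2) -/
private theorem coe_pr (n : ℕ) (T : ι → A) (hT : ∀ i, T i ^ n = 0)
    (X : ι → LieSubalgebra.lieSpan K A (Set.range T)) (hX : ∀ i, (X i : A) = T i)
    (l : List (ι × K)) (x : LieSubalgebra.lieSpan K A (Set.range T)) :
    (pr K (2 * n) (fun i => ad K (LieSubalgebra.lieSpan K A (Set.range T)) (X i)) l x : A)
      = pr K n T l * (x : A) * pr K n T (li l) := by
  induction l with
  | nil => simp [pr, li]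
  | cons p l ih =>
    have h0 : (((p.2 • X p.1 : LieSubalgebra.lieSpan K A (Set.range T)) : A)) ^ n = 0 := by
      change (p.2 • (X p.1 : A)) ^ n = 0
      rw [hX, smul_pow, hT, smul_zero]
    have h1 : pr K (2 * n) (fun i => ad K (LieSubalgebra.lieSpan K A (Set.range T)) (X i)) (p :: l)
        = ex K (2 * n) (ad K (LieSubalgebra.lieSpan K A (Set.range T)) (p.2 • X p.1))
          * pr K (2 * n) (fun i => ad K (LieSubalgebra.lieSpan K A (Set.range T)) (X i)) l := by
      simp [pr]
    have h2 : pr K n T (p :: l) = ex K n (p.2 • T p.1) * pr K n T l := by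
      simp [pr]
    have h3 : li (p :: l) = li l ++ [(p.1, -p.2)] := by
      simp [li]
    have h4 : pr K n T [(p.1, -p.2)] = ex K n (-(p.2 • T p.1)) := by
      simp [pr]
    have h5 : (((p.2 • X p.1 : LieSubalgebra.lieSpan K A (Set.range T)) : A)) = p.2 • T p.1 := by
      change p.2 • (X p.1 : A) = _
      rw [hX]
    rw [h1, Module.End.mul_apply, coe_ex n _ _ _ h0, ih, h2, h3, pr_append, h4, h5]
    simp only [mul_assoc]

theorem adrel (n m : ℕ) (hn : 1 ≤ n) (T : ι → A) (hT : ∀ i, T i ^ n = 0)
    (X : ι → LieSubalgebra.lieSpan K A (Set.range T)) (hX : ∀ i, (X i : A) = T i) (i : ι)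
    (h : ERel K n m T (T i)) :
    ERel K (2 * n) m (fun i => ad K (LieSubalgebra.lieSpan K A (Set.range T)) (X i))
      (ad K (LieSubalgebra.lieSpan K A (Set.range T)) (X i)) := by
  intro l
  have hV : ∀ x : LieSubalgebra.lieSpan K A (Set.range T),
      (ex K (2 * n) (ad K (LieSubalgebra.lieSpan K A (Set.range T)) (X i)) x : A)
        = ex K n (T i) * (x : A) * ex K n (-(T i)) := by
    intro x
    rw [coe_ex n _ (X i) x (by rw [hX, hT]), hX]
  have hV' : ∀ x : LieSubalgebra.lieSpan K A (Set.range T),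
      (ex K (2 * n) (-(ad K (LieSubalgebra.lieSpan K A (Set.range T)) (X i))) x : A)
        = ex K n (-(T i)) * (x : A) * ex K n (T i) := by
    intro x
    have h0 : ((-(X i) : LieSubalgebra.lieSpan K A (Set.range T)) : A) = -(T i) := by
      change -(X i : A) = _
      rw [hX]
    have h1 : -(ad K (LieSubalgebra.lieSpan K A (Set.range T)) (X i))
        = ad K (LieSubalgebra.lieSpan K A (Set.range T)) (-(X i)) := by
      rw [map_neg]
    rw [h1, coe_ex n _ (-(X i)) x (by rw [h0, neg_pow, hT, mul_zero]), h0, neg_neg]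
  have hk : ∀ k : ℕ, ∀ x : LieSubalgebra.lieSpan K A (Set.range T),
      ((ws (ex K (2 * n) (ad K (LieSubalgebra.lieSpan K A (Set.range T)) (X i)))
        (ex K (2 * n) (-(ad K (LieSubalgebra.lieSpan K A (Set.range T)) (X i))))
        (pr K (2 * n) (fun i => ad K (LieSubalgebra.lieSpan K A (Set.range T)) (X i)) l)
        (pr K (2 * n) (fun i => ad K (LieSubalgebra.lieSpan K A (Set.range T)) (X i)) (li l)) k).1 x : A)
        = (ws (ex K n (T i)) (ex K n (-(T i))) (pr K n T l) (pr K n T (li l)) k).1 * (x : A)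
          * (ws (ex K n (T i)) (ex K n (-(T i))) (pr K n T l) (pr K n T (li l)) k).2
      ∧ ((ws (ex K (2 * n) (ad K (LieSubalgebra.lieSpan K A (Set.range T)) (X i)))
        (ex K (2 * n) (-(ad K (LieSubalgebra.lieSpan K A (Set.range T)) (X i))))
        (pr K (2 * n) (fun i => ad K (LieSubalgebra.lieSpan K A (Set.range T)) (X i)) l)
        (pr K (2 * n) (fun i => ad K (LieSubalgebra.lieSpan K A (Set.range T)) (X i)) (li l)) k).2 x : A)
        = (ws (ex K n (T i)) (ex K n (-(T i))) (pr K n T l) (pr K n T (li l)) k).2 * (x : A)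
          * (ws (ex K n (T i)) (ex K n (-(T i))) (pr K n T l) (pr K n T (li l)) k).1 := by
    intro k
    induction k with
    | zero =>
      intro x
      constructor
      · exact coe_pr n T hT X hX l x
      · have := coe_pr n T hT X hX (li l) x
        rw [li_li] at this
        exact this
    | succ k ih =>
      intro x
      constructor
      · simp only [ws, Module.End.mul_apply]
        rw [(ih _).2, hV', (ih _).1]
        simp only [mul_assoc]
      · simp only [ws, Module.End.mul_apply]
        rw [(ih _).2, hV, (ih _).1]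
        simp only [mul_assoc]
  have hm := h l
  have hinv := ws_inv (ex K n (T i)) (ex K n (-(T i))) (pr K n T l) (pr K n T (li l))
    (ex_mul_neg n hn _ (hT i)) (ex_neg_mul n hn _ (hT i)) (pr_inv n hn T hT l) (inv_pr n hn T hT l) m
  have hm2 : (ws (ex K n (T i)) (ex K n (-(T i))) (pr K n T l) (pr K n T (li l)) m).2
      = ex K n (T i) := by
    have h1 := hinv.1
    rw [hm] at h1
    calc (ws (ex K n (T i)) (ex K n (-(T i))) (pr K n T l) (pr K n T (li l)) m).2
        = (ex K n (T i) * ex K n (-(T i)))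
          * (ws (ex K n (T i)) (ex K n (-(T i))) (pr K n T l) (pr K n T (li l)) m).2 := by
          rw [ex_mul_neg n hn _ (hT i), one_mul]
      _ = ex K n (T i) := by rw [mul_assoc, h1, mul_one]
  ext x
  rw [(hk m x).1, hm, hm2, hV']

end Pool.Agent.Helper40.TF
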