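import Pool.Agent.Helper40.TF.LieMain
import Pool.Agent.Helper40.TF.AdRel
import Pool.Agent.Helper28.TF.Assoc

/-!
PROJECT TF, module TF-18. Associative algebras generated by finitely many nilpotent Engel elements are nilpotent, with a bound.

`assoc_main`: `L = lieSpan K A (range T)`, `X i = ⟨T i, _⟩`; `ad_pow`, `span_top`, `adrel` give the hypotheses of `lie_main` with `N = 2 n`; then `assoc_nilp`.
`assoc_bound`: suppose not: for every `k` there are `V k`, `T k : Fin d → End (V k)` as in the statement and a list `l k` of length `k` with `(l.map T).prod ≠ 0`. Let `W = ∀ k, V k`, `S i : End W` componentwise (`LinearMap.pi fun k => T k i ∘ₗ LinearMap.proj k`), `P k = LinearMap.proj k`: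
`P k ∘ S i = T k i ∘ P k`. `pow_inj`, `erel_inj` (jointly injective projections) give the hypotheses of `assoc_main` for `S` in `A = Module.End ℚ W`, so some `k` with `(l.map S).prod = 0` for all `l` of length `k`. `inter_prod` and surjectivity of `P k` contradict the choice of `l k`.
-/

set_option autoImplicit false

namespace Pool.Agent.Helper40.TF

open LieAlgebra

attribute [local instance 100] LieRing.ofAssociativeRing
attribute [local instance 100] LieAlgebra.ofAssociativeAlgebra

theorem assoc_main {K A ι : Type*} [Field K] [CharZero K] [Ring A] [Algebra K A] [Finite ι] (n m : ℕ) (hn : 1 ≤ n)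
    (hm : 2 ≤ m) (T : ι → A) (hT : ∀ i, T i ^ n = 0) (hE : ∀ i, ERel K n m T (T i)) :
    ∃ k, ∀ l : List ι, l.length = k → (l.map T).prod = 0 := by
  obtain ⟨X, hX⟩ : ∃ X : ι → LieSubalgebra.lieSpan K A (Set.range T), ∀ i, (X i : A) = T i :=
    ⟨fun i => ⟨T i, LieSubalgebra.subset_lieSpan ⟨i, rfl⟩⟩, fun i => rfl⟩
  obtain ⟨k, hk⟩ := lie_main (K := K) (L := LieSubalgebra.lieSpan K A (Set.range T)) (2 * n) (by omega) m hm X
    (ad_pow n T hT X hX) (span_top T X hX) (fun i => adrel n m hn T hT X hX i (hE i))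
  exact Pool.Agent.Helper28.TF.assoc_nilp T n hT k hk

theorem assoc_bound (d n m : ℕ) (hn : 1 ≤ n) (hm : 2 ≤ m) :
    ∃ k : ℕ, ∀ (V : Type) [AddCommGroup V] [Module ℚ V] (T : Fin d → Module.End ℚ V), (∀ i, T i ^ n = 0) →
      (∀ i, ERel ℚ n m T (T i)) → ∀ l : List (Fin d), l.length = k → (l.map T).prod = 0 := by
  by_contra hcon
  push Not at hcon
  choose V iA iM T hT hE l hl hne using hcon
  let P : ∀ k, (∀ k, V k) →ₗ[ℚ] V k := fun k => LinearMap.proj k
  let S : Fin d → Module.End ℚ (∀ k, V k) := fun i => LinearMap.pi fun k => T k i ∘ₗ P k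
  have hPS : ∀ k i, P k ∘ₗ S i = T k i ∘ₗ P k := fun k i => LinearMap.ext fun x => rfl
  have hPi : ∀ x : ∀ k, V k, (∀ k, P k x = 0) → x = 0 := fun x hx => funext hx
  have h1 : ∀ i, S i ^ n = 0 := fun i =>
    pow_inj P hPi (S i) (fun k => T k i) (fun k => hPS k i) n (fun k => hT k i)
  have h2 : ∀ i, ERel ℚ n m S (S i) := fun i =>
    erel_inj P hPi S T hPS (S i) (fun k => T k i) (fun k => hPS k i) n m (fun k => hE k i)
  obtain ⟨k, hk⟩ := assoc_main (K := ℚ) n m hn hm S h1 h2
  refine hne k ?_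
  have h3 := inter_prod (P k) S (T k) (hPS k) (l k)
  rw [hk (l k) (hl k), LinearMap.comp_zero] at h3
  refine LinearMap.ext fun y => ?_
  obtain ⟨x, hx⟩ : ∃ x, P k x = y := LinearMap.proj_surjective k y
  rw [← hx]
  exact (LinearMap.congr_fun h3 x).symm

end Pool.Agent.Helper40.TF
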