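import Pool.Agent.Helper40.TF.Defs

/-!
PROJECT TF, module TF-26. Upper central quotients.

`center_tf`: `x ^ p` central, no element of order `p`. For `y : G` let `z_0 = y`, `z_(i+1) = ⁅z_i, x⁆`; `z_k = 1` for large `k` (nilpotent: `z_k ∈ lowerCentralSeries G k`). Suppose `z_(k+1) = 1`, `k ≥ 1`: `z_k = ⁅z_(k-1), x⁆` commutes with `x`, so `⁅z_(k-1), x ^ p⁆ = z_k ^ p` (with `⁅z, x⁆ = z x z⁻¹ x⁻¹ =: c`
commuting with `x`: `z x z⁻¹ = c x`, `z x^p z⁻¹ = c^p x^p`). As `x ^ p` is central, `z_k ^ p = 1`, so `z_k = 1`. Descending, `z_1 = ⁅y, x⁆ = 1`.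
`exists_quot`: induction on `nilpotencyClass G`: if it is `c + 1` take `G` itself. If it is larger, pass to `G ⧸ center G`: class drops by one (`Group.nilpotencyClass_quotient_center`), the images generate, the Engel property passes to the quotient (`map` of the iterate), and no small torsion by `center_tf`.
-/

set_option autoImplicit false

namespace Pool.Agent.Helper40.TF

open scoped commutatorElement

/-- the iterated commutators stay in the lower central series -/
private theorem iter_mem {G : Type*} [Group G] (x : G) (k : ℕ) (z : G) :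
    (fun z : G => ⁅z, x⁆)^[k] z ∈ Subgroup.lowerCentralSeries (⊤ : Subgroup G) k := by
  induction k with
  | zero => simp
  | succ k ih =>
    rw [Function.iterate_succ_apply', Subgroup.lowerCentralSeries_succ]
    exact Subgroup.commutator_mem_commutator ih (Subgroup.mem_top x)

private theorem step {G : Type*} [Group G] (p : ℕ) (h : ∀ g : G, g ^ p = 1 → g = 1) (x : G)
    (hx : x ^ p ∈ Subgroup.center G) (z : G) (hz : ⁅⁅z, x⁆, x⁆ = 1) : ⁅z, x⁆ = 1 := by
  have hcx : Commute ⁅z, x⁆ x := commutatorElement_eq_one_iff_commute.mp hz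
  apply h
  have h1 : z * x * z⁻¹ = ⁅z, x⁆ * x := by
    simp [commutatorElement_def]
  have h2 : z * x ^ p * z⁻¹ = ⁅z, x⁆ ^ p * x ^ p := by
    rw [← hcx.mul_pow, ← h1, conj_pow]
  have h3 : z * x ^ p * z⁻¹ = x ^ p := by
    rw [Subgroup.mem_center_iff.mp hx z]
    simp
  rw [h3] at h2
  exact (mul_eq_right.mp h2.symm)

private theorem desc {G : Type*} [Group G] (p : ℕ) (h : ∀ g : G, g ^ p = 1 → g = 1) (x : G)
    (hx : x ^ p ∈ Subgroup.center G) (k : ℕ) (z : G)
    (hz : (fun z : G => ⁅z, x⁆)^[k + 1] z = 1) : ⁅z, x⁆ = 1 := by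
  induction k generalizing z with
  | zero => simpa using hz
  | succ k ih =>
    rw [Function.iterate_succ_apply] at hz
    exact step p h x hx z (ih _ hz)

theorem center_tf {G : Type*} [Group G] [Group.IsNilpotent G] (p : ℕ) (h : ∀ g : G, g ^ p = 1 → g = 1) (x : G)
    (hx : x ^ p ∈ Subgroup.center G) : x ∈ Subgroup.center G := by
  rw [Subgroup.mem_center_iff]
  intro g
  have h1 : (fun z : G => ⁅z, x⁆)^[Group.nilpotencyClass G + 1] g = 1 := by
    have h2 := iter_mem x (Group.nilpotencyClass G) g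
    rw [Subgroup.lowerCentralSeries_nilpotencyClass, Subgroup.mem_bot] at h2
    rw [Function.iterate_succ_apply', h2]
    simp
  exact (commutatorElement_eq_one_iff_mul_comm.mp (desc p h x hx _ g h1))

theorem exists_quot (n d c P : ℕ) (G : Type) [Group G] [Group.IsNilpotent G] (x : Fin d → G)
    (hx : Subgroup.closure (Set.range x) = ⊤) (hE : ∀ i, ∀ y : G, (fun y : G => y⁻¹ * (x i)⁻¹ * y * x i)^[n] y = 1)
    (ht : ∀ p, p ≤ P → p.Prime → ∀ g : G, g ^ p = 1 → g = 1) (hc : c + 1 ≤ Group.nilpotencyClass G) :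
    ∃ (Q : Type) (_ : Group Q) (_ : Group.IsNilpotent Q) (x' : Fin d → Q),
      Subgroup.closure (Set.range x') = ⊤ ∧ (∀ i, ∀ y : Q, (fun y : Q => y⁻¹ * (x' i)⁻¹ * y * x' i)^[n] y = 1) ∧
      (∀ p, p ≤ P → p.Prime → ∀ g : Q, g ^ p = 1 → g = 1) ∧ Group.nilpotencyClass Q = c + 1 := by
  obtain ⟨m, hm⟩ := Nat.exists_eq_add_of_le hc
  clear hc
  induction m generalizing G with
  | zero =>
    exact ⟨G, inferInstance, inferInstance, x, hx, hE, ht, by simpa using hm⟩
  | succ m ih =>
    have hnil : Group.IsNilpotent (G ⧸ Subgroup.center G) := inferInstance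
    refine ih (G ⧸ Subgroup.center G) (fun i => (x i : G ⧸ Subgroup.center G)) ?_ ?_ ?_ ?_
    · have h1 : Set.range (fun i => (x i : G ⧸ Subgroup.center G))
          = (QuotientGroup.mk' (Subgroup.center G)) '' (Set.range x) := by
        rw [← Set.range_comp]
        rfl
      rw [h1, ← MonoidHom.map_closure, hx, ← MonoidHom.range_eq_map]
      exact MonoidHom.range_eq_top.mpr (QuotientGroup.mk'_surjective _)
    · intro i y
      obtain ⟨y0, rfl⟩ := QuotientGroup.mk'_surjective (Subgroup.center G) y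
      have hs : Function.Semiconj (QuotientGroup.mk' (Subgroup.center G))
          (fun y : G => y⁻¹ * (x i)⁻¹ * y * x i)
          (fun y : G ⧸ Subgroup.center G => y⁻¹ * ((x i : G ⧸ Subgroup.center G))⁻¹ * y
            * (x i : G ⧸ Subgroup.center G)) := by
        intro y
        simp
      have h2 := hs.iterate_right n y0
      rw [← h2, hE i y0]
      simp
    · intro p hp hpp g
      obtain ⟨g0, rfl⟩ := QuotientGroup.mk'_surjective (Subgroup.center G) g
      intro hg
      rw [← map_pow] at hg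
      have h3 : g0 ^ p ∈ Subgroup.center G := by
        rw [← QuotientGroup.eq_one_iff]
        exact hg
      have h4 := center_tf p (ht p hp hpp) g0 h3
      exact (QuotientGroup.eq_one_iff g0).mpr h4
    · rw [Group.nilpotencyClass_quotient_center, hm]
      omega

end Pool.Agent.Helper40.TF
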