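import Pool.Agent.Helper40.TF.Defs

/-!
PROJECT TF, module TF-27. Commutators of generators.

`cw a l` is the left-normed commutator `⁅..⁅⁅a, s_1⁆, s_2⁆ .., s_k⁆`. `upper_of_cw`: claim: for `j ≤ c`, all `i` and all `l` of length `c - j`: `cw (x i) (l.map x) ∈ upperCentralSeries G j`. `j = 0`: hypothesis. Step: for `l` of length `c - j - 1` and every `s`, `⁅cw (x i) (l.map x), x s⁆ = cw (x i) ((l ++ [s]).map x) ∈ Z_j`; the
set of `g` with `⁅b, g⁆ ∈ Z_j` is a subgroup (`Z_j` normal; i.e. `g` commutes with `b` modulo `Z_j`) containing the generators, so everything, and `b ∈ Z_(j+1)` (`Subgroup.mem_upperCentralSeries_succ_iff`). For `j = c`: all `x i ∈ Z_c`, so `Z_c = ⊤`.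
`cw_hom`: induction.
-/

set_option autoImplicit false

namespace Pool.Agent.Helper40.TF

open scoped commutatorElement

/-- Left-normed commutators. -/
def cw {G : Type*} [Group G] (a : G) (l : List G) : G := l.foldl (fun b s => ⁅b, s⁆) a

private theorem CommWords_snoc {G : Type*} [Group G] (a : G) (l : List G) (s : G) :
    cw a (l ++ [s]) = ⁅cw a l, s⁆ := by
  unfold cw
  rw [List.foldl_append]
  rfl

private theorem CommWords_all {G : Type*} [Group G] (Z : Subgroup G) [hZ : Z.Normal] (b : G)
    (S : Set G) (hS : ∀ g ∈ S, ⁅b, g⁆ ∈ Z) (y : G) (hy : y ∈ Subgroup.closure S) : ⁅b, y⁆ ∈ Z := by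
  induction hy using Subgroup.closure_induction with
  | mem g hg => exact hS g hg
  | one =>
    rw [commutatorElement_one_right]
    exact one_mem _
  | mul g k _ _ hg hk =>
    have e : ⁅b, g * k⁆ = ⁅b, g⁆ * (g * ⁅b, k⁆ * g⁻¹) := by
      simp only [commutatorElement_def]
      group
    rw [e]
    exact mul_mem hg (hZ.conj_mem _ hk g)
  | inv g _ hg =>
    have e : ⁅b, g⁻¹⁆ = g⁻¹ * ⁅b, g⁆⁻¹ * g⁻¹⁻¹ := by
      simp only [commutatorElement_def]
      group
    rw [e]
    exact hZ.conj_mem _ (inv_mem hg) g⁻¹

theorem cw_hom {G H : Type*} [Group G] [Group H] (φ : G →* H) (a : G) (l : List G) :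
    φ (cw a l) = cw (φ a) (l.map φ) := by
  induction l generalizing a with
  | nil => rfl
  | cons s l ih =>
    have h1 : cw a (s :: l) = cw ⁅a, s⁆ l := rfl
    have h2 : cw (φ a) ((s :: l).map φ) = cw ⁅φ a, φ s⁆ (l.map φ) := rfl
    rw [h1, h2, ih, map_commutatorElement]

theorem cw_lower {G : Type*} [Group G] (a : G) (l : List G) : cw a l ∈ (⊤ : Subgroup G).lowerCentralSeries l.length := by
  induction l using List.reverseRecOn with
  | nil => exact Subgroup.mem_top _
  | append_singleton l s ih =>
    rw [CommWords_snoc, List.length_append, List.length_singleton,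
      Subgroup.lowerCentralSeries_succ]
    exact Subgroup.commutator_mem_commutator ih (Subgroup.mem_top s)

theorem upper_of_cw {G ι : Type*} [Group G] (x : ι → G) (hx : Subgroup.closure (Set.range x) = ⊤) (c : ℕ)
    (h : ∀ (i : ι) (l : List ι), l.length = c → cw (x i) (l.map x) = 1) : Subgroup.upperCentralSeries G c = ⊤ := by
  have key : ∀ j : ℕ, j ≤ c → ∀ (i : ι) (l : List ι), l.length = c - j →
      cw (x i) (l.map x) ∈ Subgroup.upperCentralSeries G j := by
    intro j
    induction j with
    | zero =>
      intro _ i l hl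
      rw [h i l (by omega)]
      exact one_mem _
    | succ j ih =>
      intro hj i l hl
      rw [Subgroup.mem_upperCentralSeries_succ_iff]
      intro y
      have hy : y ∈ Subgroup.closure (Set.range x) := by
        rw [hx]
        exact Subgroup.mem_top y
      refine CommWords_all _ _ (Set.range x) ?_ y hy
      rintro _ ⟨t, rfl⟩
      have h1 := ih (by omega) i (l ++ [t]) (by
        rw [List.length_append, List.length_singleton]
        omega)
      rw [List.map_append, List.map_singleton, CommWords_snoc] at h1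
      exact h1
  rw [eq_top_iff, ← hx, Subgroup.closure_le]
  rintro _ ⟨i, rfl⟩
  exact key c le_rfl i [] (by simp)

end Pool.Agent.Helper40.TF
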