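import Mathlib

/-!
PROJECT TF (MP_629dac_al), definitions. Torsion-free nilpotent groups generated by left n-Engel elements have bounded class.
Memos: /team-store/memo_TF_helper40.md, /team-store/memo_KZ_helper40.md.

`K` is a field of characteristic 0, `A` an associative `K`-algebra (mostly `Module.End K L`).
-/

set_option autoImplicit false

namespace Pool.Agent.Helper40.TF

open Finset

section
variable (K : Type*) {A ι : Type*} [Field K] [Ring A] [Algebra K A]

/-- The exponential series truncated at `N` (used for `D ^ N = 0`). -/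
def ex (N : ℕ) (D : A) : A := ∑ k ∈ range N, ((k.factorial : K)⁻¹) • D ^ k

/-- The product of the exponentials `exp (c • T i)` over a list of pairs `(i, c)`. -/
def pr (N : ℕ) (T : ι → A) (l : List (ι × K)) : A := (l.map fun p => ex K N (p.2 • T p.1)).prod

/-- The list of the inverse product. -/
def li {K ι : Type*} [Field K] (l : List (ι × K)) : List (ι × K) := (l.map fun p => (p.1, -p.2)).reverse

/-- The Engel sequence of pairs `(w_k, w_k⁻¹)`: `w_0 = y`, `w_(k+1) = w_k⁻¹ v⁻¹ w_k`.
Here `v'` and `y'` are the inverses of `v` and `y`. In a group, `[y,_n v] = 1` iff `w_n = v⁻¹`. -/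
def ws {A : Type*} [Ring A] (v v' y y' : A) : ℕ → A × A
  | 0 => (y, y')
  | k + 1 => ((ws v v' y y' k).2 * v' * (ws v v' y y' k).1, (ws v v' y y' k).2 * v * (ws v v' y y' k).1)

/-- `exp a` is a left `n`-Engel element with respect to the group generated by all `exp (c • T i)`. -/
def ERel (N n : ℕ) (T : ι → A) (a : A) : Prop :=
  ∀ l : List (ι × K),
    (ws (ex K N a) (ex K N (-a)) (pr K N T l) (pr K N T (li l)) n).1 = ex K N (-a)

/-- Evaluation of a polynomial with coefficients in the noncommutative algebra `A` at a scalar. -/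
noncomputable def ev (t : K) : Polynomial A →+* A :=
  Polynomial.eval₂RingHom' (RingHom.id A) (algebraMap K A t)
    (fun a => (Algebra.commutes t a).symm)

end

/-- `f` is a polynomial function of the parameter with coefficients in the module `V`. -/
def IsP {K V : Type*} [Field K] [AddCommGroup V] [Module K V] (f : K → V) : Prop :=
  ∃ (N : ℕ) (p : ℕ → V), ∀ t, f t = ∑ i ∈ range N, t ^ i • p i

/-- `c` is the velocity of a polynomial curve in the group generated by the `exp (a • T i)`, `T i = ad (X i)`:
`exp (t c)` up to second order, modulo the adjoint operator of some `m`. -/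
def Path (K : Type*) {L ι : Type*} [Field K] [LieRing L] [LieAlgebra K L] (N : ℕ) (X : ι → L) (c : L) : Prop :=
  ∃ (l : K → List (ι × K)) (m : L) (P P' : K → Module.End K L), IsP P ∧ IsP P' ∧
    (∀ t, pr K N (fun i => LieAlgebra.ad K L (X i)) (l t) =
      1 + t • LieAlgebra.ad K L c + t ^ 2 • ((2 : K)⁻¹ • (LieAlgebra.ad K L c) ^ 2 + LieAlgebra.ad K L m) + t ^ 3 • P t) ∧
    (∀ t, pr K N (fun i => LieAlgebra.ad K L (X i)) (li (l t)) =
      1 - t • LieAlgebra.ad K L c + t ^ 2 • ((2 : K)⁻¹ • (LieAlgebra.ad K L c) ^ 2 - LieAlgebra.ad K L m) + t ^ 3 • P' t)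

end Pool.Agent.Helper40.TF
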