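import Pool.Agent.Helper40.TF.AdExp
import Pool.Agent.Helper40.TF.Poly

/-!
PROJECT TF, module TF-21. Integer exponents suffice.

`IsP.zero_of_int`: `f t = ∑ i < N, t ^ i • p i` vanishes at all integers. Then all `p i = 0`: as in `coeff_zero` (a nonzero vector is detected by a linear functional, and a polynomial over `K` with infinitely many zeros is `0`; the integers are infinitely many points as `K` has characteristic `0`).
`isP_ws4`: induction, `IsP.mul`.
`erel_of_int`: claim: the relation holds for `l₁ ++ l₂`, `l₁` arbitrary and all scalars of `l₂` integers; induction on `l₁` from the right (`List.reverseRecOn`): for `l₁ ++ [(i, c)]` consider both sides for `(l₁ ++ [(i, t)]) ++ l₂` as functions of `t`: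
`pr` is `pr l₁ * ex K N (t • T i) * pr l₂` and `pr (li ..) = pr (li l₂) * ex K N ((-t) • T i) * pr (li l₁)`, both `IsP` (`IsP.ex`, `IsP.mul`, `IsP.pow_smul` with exponent `1`); the difference of both sides of the relation is `IsP` (`isP_ws4`) and vanishes at integers `t`
(induction hypothesis for `l₁` and `(i, t) :: l₂`). So it vanishes at `c`. Take `l₂ = []`.
-/

set_option autoImplicit false

namespace Pool.Agent.Helper40.TF

variable {K A ι : Type*} [Field K] [CharZero K] [Ring A] [Algebra K A]

theorem IsP.zero_of_int {V : Type*} [AddCommGroup V] [Module K V] (f : K → V) (hf : IsP f)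
    (h : ∀ z : ℤ, f (z : K) = 0) (t : K) : f t = 0 := by
  obtain ⟨N, p, hp⟩ := hf
  rw [← Module.forall_dual_apply_eq_zero_iff K]
  intro φ
  have he : ∀ s : K, Polynomial.eval s
      (∑ j ∈ Finset.range N, Polynomial.C (φ (p j)) * Polynomial.X ^ j : Polynomial K) = φ (f s) := by
    intro s
    rw [hp, map_sum, Polynomial.eval_finsetSum]
    refine Finset.sum_congr rfl fun j _ => ?_
    rw [map_smul, smul_eq_mul, Polynomial.eval_mul, Polynomial.eval_C, Polynomial.eval_pow,
      Polynomial.eval_X, mul_comm]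
  have hz : (∑ j ∈ Finset.range N, Polynomial.C (φ (p j)) * Polynomial.X ^ j : Polynomial K) = 0 := by
    apply Polynomial.eq_zero_of_infinite_isRoot
    refine Set.Infinite.mono (s := Set.range (fun z : ℤ => (z : K))) ?_
      (Set.infinite_range_of_injective Int.cast_injective)
    rintro _ ⟨z, rfl⟩
    show Polynomial.eval (z : K) _ = 0
    rw [he, h, map_zero]
  rw [← he, hz, Polynomial.eval_zero]

omit [CharZero K] in
theorem isP_ws4 (v v' y y' : K → A) (hv : IsP v) (hv' : IsP v') (hy : IsP y) (hy' : IsP y')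
    (n : ℕ) : IsP (fun t => (ws (v t) (v' t) (y t) (y' t) n).1) ∧ IsP (fun t => (ws (v t) (v' t) (y t) (y' t) n).2) := by
  induction n with
  | zero => exact ⟨hy, hy'⟩
  | succ n ih =>
    exact ⟨IsP.mul _ _ (IsP.mul _ _ ih.2 hv') ih.1, IsP.mul _ _ (IsP.mul _ _ ih.2 hv) ih.1⟩

omit [CharZero K] in
private theorem isP_ex_smul (N : ℕ) (x : A) : IsP (fun t : K => ex K N (t • x)) := by
  have h1 : IsP (fun t : K => t • x) := by
    have h2 := IsP.pow_smul (K := K) 1 (fun _ => x) (IsP.const x)
    simpa only [pow_one] using h2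
  exact IsP.ex N _ h1

private theorem pr_mid (N : ℕ) (T : ι → A) (l₁ l₂ : List (ι × K)) (i : ι) (t : K) :
    pr K N T ((l₁ ++ [(i, t)]) ++ l₂) = pr K N T l₁ * ex K N (t • T i) * pr K N T l₂ := by
  rw [pr_append, pr_append]
  congr 2
  simp [pr]

private theorem pr_li_mid (N : ℕ) (T : ι → A) (l₁ l₂ : List (ι × K)) (i : ι) (t : K) :
    pr K N T (li ((l₁ ++ [(i, t)]) ++ l₂)) =
      pr K N T (li l₂) * (ex K N (t • (-T i)) * pr K N T (li l₁)) := by
  rw [li_append, li_append, pr_append, pr_append]
  congr 2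
  simp [pr, li]

theorem erel_of_int (N n : ℕ) (T : ι → A) (a : A)
    (h : ∀ l : List (ι × K), (∀ p ∈ l, ∃ z : ℤ, p.2 = (z : K)) →
      (ws (ex K N a) (ex K N (-a)) (pr K N T l) (pr K N T (li l)) n).1 = ex K N (-a)) :
    ERel K N n T a := by
  have key : ∀ l₁ : List (ι × K), ∀ l₂ : List (ι × K), (∀ p ∈ l₂, ∃ z : ℤ, p.2 = (z : K)) →
      (ws (ex K N a) (ex K N (-a)) (pr K N T (l₁ ++ l₂)) (pr K N T (li (l₁ ++ l₂))) n).1 =
        ex K N (-a) := by
    intro l₁
    induction l₁ using List.reverseRecOn with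
    | nil =>
      intro l₂ h₂
      exact h l₂ h₂
    | append_singleton l₁ q ih =>
      obtain ⟨i, c⟩ := q
      intro l₂ h₂
      have hP : IsP (fun t : K => (ws (ex K N a) (ex K N (-a)) (pr K N T ((l₁ ++ [(i, t)]) ++ l₂))
          (pr K N T (li ((l₁ ++ [(i, t)]) ++ l₂))) n).1) := by
        have h1 : IsP (fun t : K => pr K N T ((l₁ ++ [(i, t)]) ++ l₂)) := by
          simp only [pr_mid]
          exact IsP.mul _ _ (IsP.mul _ _ (IsP.const _) (isP_ex_smul N (T i))) (IsP.const _)
        have h2 : IsP (fun t : K => pr K N T (li ((l₁ ++ [(i, t)]) ++ l₂))) := by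
          simp only [pr_li_mid]
          exact IsP.mul _ _ (IsP.const _) (IsP.mul _ _ (isP_ex_smul N (-T i)) (IsP.const _))
        exact (isP_ws4 _ _ _ _ (IsP.const _) (IsP.const _) h1 h2 n).1
      have hQ := IsP.add _ _ hP (IsP.const (K := K) (-ex K N (-a)))
      have hR := IsP.zero_of_int _ hQ (fun z => by
        have h3 := ih ((i, (z : K)) :: l₂) (by
          intro p hp
          rcases List.mem_cons.1 hp with rfl | hp
          · exact ⟨z, rfl⟩
          · exact h₂ p hp)
        have h4 : l₁ ++ (i, (z : K)) :: l₂ = (l₁ ++ [(i, (z : K))]) ++ l₂ := by simp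
        rw [h4] at h3
        rw [h3, add_neg_cancel]) c
      exact add_neg_eq_zero.1 hR
  intro l
  have h5 := key l [] (by simp)
  rwa [List.append_nil] at h5

end Pool.Agent.Helper40.TF
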