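import Pool.Agent.Helper40.TF.CommWords

/-!
PROJECT TF, module TF-28. The product of a sequence of groups modulo the sequences which are eventually trivial.

`G N` groups of class `≤ c + 1` generated by `x N i`, left `n`-Engel, without elements of prime order `≤ N`. `P = ∀ N, G N`, `E = {g | ∃ N₀, ∀ N ≥ N₀, g N = 1}` normal, `Q = P ⧸ E`, `H` the subgroup of `Q` generated by the classes `y i` of `x · i`.
* `H` is nilpotent: every element of `lcs (c+1)` of `P` is trivial (project to the coordinates: `Subgroup.lowerCentralSeries` maps into the one of `G N`, which is `⊥` at `c + 1`; or prove it for `Q` via `cw`-free argument: `upper` or `lower` series of a product of groups of bounded class,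
  `Group.isNilpotent_pi_of_bounded_class`), quotients and subgroups of nilpotent groups are nilpotent.
* `y i` is left `n`-Engel in `H`: for `z ∈ H ⊆ Q` lift `z` to `g ∈ P`; the iterate of `g` is `1` in every coordinate, the quotient map and the inclusion commute with the iterate.
* `H` torsion-free: `z ^ k = 1`, `0 < k`, lift `g`: `g N ^ k = 1` for large `N`, and for `N ≥ k` as `G N` has no elements of prime order `≤ k`: if `g N ≠ 1` has order `m ∣ k`, `m > 1`, with a prime divisor `p`, then `(g N) ^ (m / p)` has order `p ≤ k ≤ N`.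
* hypothesis `hc` gives `nilpotencyClass H ≤ c`, so `cw (y i) (l.map y) = 1` for every `l : List (Fin d)` of length `c` (`cw_lower`, `lcs c = ⊥`). Back in `P`: `cw (x · i) (l.map (x ·))` is eventually `1` (`cw_hom` for the quotient map, inclusion and projections). There are finitely many `(i, l)`, so for one `N` all
  `cw (x N i) (l.map (x N)) = 1`, and `upper_of_cw` gives `upperCentralSeries (G N) c = ⊤`, i.e. `nilpotencyClass (G N) ≤ c`.
-/

set_option autoImplicit false

namespace Pool.Agent.Helper40.TF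

private def evE (G : ℕ → Type) [∀ N, Group (G N)] : Subgroup (∀ N, G N) where
  carrier := {g | ∀ᶠ N in Filter.atTop, g N = 1}
  mul_mem' := by
    intro a b ha hb
    filter_upwards [ha, hb] with N h1 h2
    rw [Pi.mul_apply, h1, h2, mul_one]
  one_mem' := Filter.Eventually.of_forall fun _ => rfl
  inv_mem' := by
    intro a ha
    filter_upwards [ha] with N h1
    rw [Pi.inv_apply, h1, inv_one]

private instance evE_normal (G : ℕ → Type) [∀ N, Group (G N)] : (evE G).Normal where
  conj_mem := by
    intro a ha g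
    show ∀ᶠ N in Filter.atTop, (g * a * g⁻¹) N = 1
    have ha' : ∀ᶠ N in Filter.atTop, a N = 1 := ha
    filter_upwards [ha'] with N h1
    rw [Pi.mul_apply, Pi.mul_apply, h1, mul_one, Pi.inv_apply, mul_inv_cancel]

private lemma hom_iter {A B : Type*} [Group A] [Group B] (φ : A →* B) (a : A) (n : ℕ) (g : A) :
    φ ((fun z : A => z⁻¹ * a⁻¹ * z * a)^[n] g) =
      (fun z : B => z⁻¹ * (φ a)⁻¹ * z * φ a)^[n] (φ g) := by
  have h : Function.Semiconj φ (fun z : A => z⁻¹ * a⁻¹ * z * a)
      (fun z : B => z⁻¹ * (φ a)⁻¹ * z * φ a) := by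
    intro z
    simp only [map_mul, map_inv]
  exact (h.iterate_right n) g

private lemma tf_coord {A : Type*} [Group A] (N k : ℕ) (hk : 0 < k) (hkN : k ≤ N)
    (ht : ∀ p, p ≤ N → p.Prime → ∀ g : A, g ^ p = 1 → g = 1) (g : A) (hg : g ^ k = 1) : g = 1 := by
  by_contra hne
  have hdvd : orderOf g ∣ k := orderOf_dvd_of_pow_eq_one hg
  have hpos : 0 < orderOf g := Nat.pos_of_dvd_of_pos hdvd hk
  have h1 : orderOf g ≠ 1 := fun h => hne (orderOf_eq_one_iff.mp h)
  have hp := Nat.minFac_prime h1
  have hpd := Nat.minFac_dvd (orderOf g)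
  have hple : (orderOf g).minFac ≤ N :=
    (Nat.minFac_le hpos).trans ((Nat.le_of_dvd hk hdvd).trans hkN)
  have h2 : (g ^ (orderOf g / (orderOf g).minFac)) ^ (orderOf g).minFac = 1 := by
    rw [← pow_mul, Nat.div_mul_cancel hpd, pow_orderOf_eq_one]
  have h3 := ht _ hple hp _ h2
  have h4 := Nat.le_of_dvd (Nat.div_pos (Nat.minFac_le hpos) hp.pos) (orderOf_dvd_of_pow_eq_one h3)
  have h5 := Nat.div_lt_self hpos hp.one_lt
  omega

theorem ev_prod (n d c : ℕ)
    (hc : ∀ (H : Type) [Group H] [Group.IsNilpotent H] (y : Fin d → H), Subgroup.closure (Set.range y) = ⊤ →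
      (∀ i, ∀ z : H, (fun z : H => z⁻¹ * (y i)⁻¹ * z * y i)^[n] z = 1) →
      (∀ (k : ℕ) (z : H), 0 < k → z ^ k = 1 → z = 1) → Group.nilpotencyClass H ≤ c)
    (G : ℕ → Type) [∀ N, Group (G N)] [∀ N, Group.IsNilpotent (G N)] (x : ∀ N, Fin d → G N)
    (hx : ∀ N, Subgroup.closure (Set.range (x N)) = ⊤)
    (hE : ∀ N i, ∀ z : G N, (fun z : G N => z⁻¹ * (x N i)⁻¹ * z * x N i)^[n] z = 1)
    (ht : ∀ N p, p ≤ N → p.Prime → ∀ g : G N, g ^ p = 1 → g = 1)
    (hcl : ∀ N, Group.nilpotencyClass (G N) ≤ c + 1) : ∃ N, Group.nilpotencyClass (G N) ≤ c := by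
  have hP : Group.IsNilpotent (∀ N, G N) := Group.isNilpotent_pi_of_bounded_class (c + 1) hcl
  let E : Subgroup (∀ N, G N) := evE G
  let π : (∀ N, G N) →* ((∀ N, G N) ⧸ E) := QuotientGroup.mk' E
  let X : Fin d → (∀ N, G N) := fun i N => x N i
  let H : Subgroup ((∀ N, G N) ⧸ E) := Subgroup.closure (Set.range fun i => π (X i))
  let y : Fin d → H := fun i => ⟨π (X i), Subgroup.subset_closure ⟨i, rfl⟩⟩
  have hQ : Group.IsNilpotent ((∀ N, G N) ⧸ E) := inferInstance
  have hH : Group.IsNilpotent H := inferInstance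
  have hy : Subgroup.closure (Set.range y) = ⊤ := by
    have e : Set.range y = ((↑) : H → ((∀ N, G N) ⧸ E)) ⁻¹' (Set.range fun i => π (X i)) := by
      ext z
      constructor
      · rintro ⟨i, rfl⟩
        exact ⟨i, rfl⟩
      · rintro ⟨i, hi⟩
        exact ⟨i, Subtype.ext hi⟩
    rw [e]
    exact Subgroup.closure_closure_coe_preimage
  have hlift : ∀ z : H, ∃ g : (∀ N, G N), π g = (z : (∀ N, G N) ⧸ E) := fun z =>
    QuotientGroup.mk'_surjective E z
  have hker : ∀ g : (∀ N, G N), π g = 1 ↔ ∀ᶠ N in Filter.atTop, g N = 1 := fun g =>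
    QuotientGroup.eq_one_iff g
  have heng : ∀ i, ∀ z : H, (fun z : H => z⁻¹ * (y i)⁻¹ * z * y i)^[n] z = 1 := by
    intro i z
    obtain ⟨g, hg⟩ := hlift z
    apply Subtype.ext
    have h1 := hom_iter H.subtype (y i) n z
    have h2 := hom_iter π (X i) n g
    have h3 : (fun z : (∀ N, G N) => z⁻¹ * (X i)⁻¹ * z * X i)^[n] g = 1 := by
      funext N
      have h4 := hom_iter (Pi.evalMonoidHom G N) (X i) n g
      exact h4.trans (hE N i (g N))
    rw [h3, map_one, hg] at h2
    exact h1.trans h2.symm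
  have htf : ∀ (k : ℕ) (z : H), 0 < k → z ^ k = 1 → z = 1 := by
    intro k z hk hz
    obtain ⟨g, hg⟩ := hlift z
    have h1 : π (g ^ k) = 1 := by
      rw [map_pow, hg, ← Subgroup.coe_pow, hz, Subgroup.coe_one]
    rw [hker] at h1
    have h2 : π g = 1 := by
      rw [hker]
      filter_upwards [h1, Filter.eventually_ge_atTop k] with N h3 h4
      exact tf_coord N k hk h4 (ht N) (g N) h3
    apply Subtype.ext
    rw [← hg, h2, Subgroup.coe_one]
  have hclass := hc H y hy heng htf
  have hlow : (⊤ : Subgroup H).lowerCentralSeries c = ⊥ :=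
    Subgroup.lowerCentralSeries_eq_bot_iff_nilpotencyClass_le.mpr hclass
  have hcw : ∀ (i : Fin d) (l : List (Fin d)), l.length = c → cw (y i) (l.map y) = 1 := by
    intro i l hl
    have h1 := cw_lower (y i) (l.map y)
    rw [List.length_map, hl, hlow] at h1
    exact Subgroup.mem_bot.mp h1
  have hev : ∀ (i : Fin d) (l : List (Fin d)), l.length = c →
      ∀ᶠ N in Filter.atTop, cw (x N i) (l.map (x N)) = 1 := by
    intro i l hl
    have h1 : π (cw (X i) (l.map X)) = 1 := by
      have h2 := cw_hom π (X i) (l.map X)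
      have h3 := cw_hom H.subtype (y i) (l.map y)
      rw [hcw i l hl, map_one] at h3
      rw [h2, List.map_map]
      rw [List.map_map] at h3
      exact h3.symm
    rw [hker] at h1
    filter_upwards [h1] with N h2
    have h4 := cw_hom (Pi.evalMonoidHom G N) (X i) (l.map X)
    rw [List.map_map] at h4
    exact h4.symm.trans h2
  have hall : ∀ᶠ N in Filter.atTop, ∀ i : Fin d, ∀ l ∈ {l : List (Fin d) | l.length = c},
      cw (x N i) (l.map (x N)) = 1 := by
    rw [Filter.eventually_all]
    intro i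
    rw [Filter.eventually_all_finite (List.finite_length_eq (Fin d) c)]
    intro l hl
    exact hev i l hl
  obtain ⟨N, hN⟩ := hall.exists
  refine ⟨N, Subgroup.upperCentralSeries_eq_top_iff_nilpotencyClass_le.mp ?_⟩
  exact upper_of_cw (x N) (hx N) c fun i l hl => hN i l hl

end Pool.Agent.Helper40.TF
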