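import Pool.Agent.Helper40.TF.Defs

/-!
PROJECT TF, module TF-1. The truncated exponential.

`ex_trunc`: the extra terms contain `D ^ k`, `k ≥ N`, which vanish. `ex_zero`: only `k = 0` survives.
`ex_add`: `a b = b a`, `a ^ N = b ^ N = (a + b) ^ N = 0`: by `ex_trunc` replace `N` by `2 N` for `a + b` : `ex (2N) (a + b) = ∑ k < 2N, (1/k!) ∑_{i + j = k} C(k,i) a^i b^j = ∑_{i + j < 2N} a^i b^j / (i! j!)` (`Commute.add_pow`), and the
pairs with `i ≥ N` or `j ≥ N` contribute `0`, all pairs `i, j < N` have `i + j < 2N`. (Or use `IsNilpotent.exp_add_of_commute` with `IsNilpotent.exp` after identifying `ex` with it; needs a `ℚ`-algebra structure. The direct proof is easy.)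
`ex_mul_neg`: `ex_add` with `b = -a`, `ex_zero`.
`ex_conj`: `(u D u') ^ k = u D ^ k u'` for `u' u = 1`, and for `k = 0` use `u u' = 1`.
`ex_comm`: `ex` of `D` commutes with what `D` commutes with (sum of multiples of powers).
-/

set_option autoImplicit false

namespace Pool.Agent.Helper40.TF

open Finset

variable {K A : Type*} [Field K] [CharZero K] [Ring A] [Algebra K A]

omit [CharZero K] in
theorem ex_trunc (N M : ℕ) (h : N ≤ M) (D : A) (hD : D ^ N = 0) : ex K M D = ex K N D := by
  unfold ex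
  symm
  apply sum_subset (range_subset_range.2 h)
  intro k _ hk
  have hk' : N ≤ k := by
    rw [mem_range] at hk
    omega
  obtain ⟨j, rfl⟩ := Nat.exists_eq_add_of_le hk'
  rw [pow_add, hD, zero_mul, smul_zero]

omit [CharZero K] in
theorem ex_zero (N : ℕ) (h : 1 ≤ N) : ex K N (0 : A) = 1 := by
  unfold ex
  rw [sum_eq_single_of_mem 0 (mem_range.2 (by omega))]
  · simp
  · intro k _ hk
    rw [zero_pow hk, smul_zero]

theorem ex_add (N : ℕ) (a b : A) (hc : a * b = b * a) (ha : a ^ N = 0) (hb : b ^ N = 0) (hab : (a + b) ^ N = 0) :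
    ex K N (a + b) = ex K N a * ex K N b := by
  have hpow : ∀ (c : A), c ^ N = 0 → ∀ k, N ≤ k → c ^ k = 0 := by
    intro c hc k hk
    obtain ⟨j, rfl⟩ := Nat.exists_eq_add_of_le hk
    rw [pow_add, hc, zero_mul]
  rw [← ex_trunc N (2 * N) (by omega) (a + b) hab]
  unfold ex
  have h1 : ∀ k, ((k.factorial : K)⁻¹) • (a + b) ^ k =
      ∑ p ∈ antidiagonal k, (((p.1.factorial : K)⁻¹) * ((p.2.factorial : K)⁻¹)) • (a ^ p.1 * b ^ p.2) := by
    intro k
    have hcomm : Commute a b := hc
    rw [hcomm.add_pow', smul_sum]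
    refine sum_congr rfl fun p hp => ?_
    have hp' : p.1 + p.2 = k := mem_antidiagonal.1 hp
    have h2 : (k.choose p.1 : K) * ((p.1.factorial : K) * (p.2.factorial : K)) = (k.factorial : K) := by
      have h3 := Nat.choose_mul_factorial_mul_factorial (n := k) (k := p.1) (by omega)
      have h4 : k - p.1 = p.2 := by omega
      rw [h4] at h3
      rw [← mul_assoc]
      exact_mod_cast h3
    have f1 : (p.1.factorial : K) ≠ 0 := Nat.cast_ne_zero.2 (Nat.factorial_ne_zero _)
    have f2 : (p.2.factorial : K) ≠ 0 := Nat.cast_ne_zero.2 (Nat.factorial_ne_zero _)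
    have f3 : (k.factorial : K) ≠ 0 := Nat.cast_ne_zero.2 (Nat.factorial_ne_zero _)
    rw [← Nat.cast_smul_eq_nsmul K, smul_smul]
    congr 1
    field_simp
    rw [← h2]
    ring
  rw [sum_congr rfl fun k _ => h1 k]
  have h4 : ∑ k ∈ range (2 * N), ∑ p ∈ antidiagonal k,
      (((p.1.factorial : K)⁻¹) * ((p.2.factorial : K)⁻¹)) • (a ^ p.1 * b ^ p.2) =
      ∑ p ∈ (range (2 * N) ×ˢ range (2 * N)).filter (fun p => p.1 + p.2 < 2 * N), ∑ _k ∈ ({p.1 + p.2} : Finset ℕ),
      (((p.1.factorial : K)⁻¹) * ((p.2.factorial : K)⁻¹)) • (a ^ p.1 * b ^ p.2) := by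
    apply sum_comm'
    intro k p
    simp only [mem_range, HasAntidiagonal.mem_antidiagonal, mem_singleton, mem_filter, mem_product]
    omega
  rw [h4]
  simp only [sum_singleton]
  rw [sum_mul_sum, ← sum_product']
  symm
  have h5 : ∀ p : ℕ × ℕ, ((p.1.factorial : K)⁻¹) • a ^ p.1 * ((p.2.factorial : K)⁻¹) • b ^ p.2 =
      (((p.1.factorial : K)⁻¹) * ((p.2.factorial : K)⁻¹)) • (a ^ p.1 * b ^ p.2) := by
    intro p
    rw [smul_mul_smul_comm]
  rw [sum_congr rfl fun p _ => h5 p]
  apply sum_subset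
  · intro p hp
    simp only [mem_range, mem_filter, mem_product] at hp ⊢
    omega
  · intro p _ hp
    simp only [mem_range, mem_product, not_and_or, not_lt] at hp
    rcases hp with hp | hp
    · rw [hpow a ha _ hp, zero_mul, smul_zero]
    · rw [hpow b hb _ hp, mul_zero, smul_zero]

theorem ex_mul_neg (N : ℕ) (h : 1 ≤ N) (a : A) (ha : a ^ N = 0) : ex K N a * ex K N (-a) = 1 := by
  have hb : (-a) ^ N = 0 := by
    rw [neg_pow, ha, mul_zero]
  have hz : (a + -a) ^ N = 0 := by
    rw [add_neg_cancel, zero_pow (by omega)]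
  rw [← ex_add N a (-a) (by simp) ha hb hz, add_neg_cancel, ex_zero N h]

theorem ex_neg_mul (N : ℕ) (h : 1 ≤ N) (a : A) (ha : a ^ N = 0) : ex K N (-a) * ex K N a = 1 := by
  have hb : (-a) ^ N = 0 := by
    rw [neg_pow, ha, mul_zero]
  have := ex_mul_neg (K := K) N h (-a) hb
  rwa [neg_neg] at this

omit [CharZero K] in
theorem ex_conj (N : ℕ) (u u' D : A) (h1 : u * u' = 1) (h2 : u' * u = 1) : ex K N (u * D * u') = u * ex K N D * u' := by
  have hk : ∀ k, (u * D * u') ^ k = u * D ^ k * u' := by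
    intro k
    induction k with
    | zero => rw [pow_zero, pow_zero, mul_one, h1]
    | succ k ih =>
      rw [pow_succ, ih, pow_succ]
      calc u * D ^ k * u' * (u * D * u') = u * D ^ k * (u' * u) * D * u' := by noncomm_ring
        _ = u * (D ^ k * D) * u' := by
          rw [h2]
          noncomm_ring
  unfold ex
  rw [mul_sum, sum_mul]
  refine sum_congr rfl fun k _ => ?_
  rw [hk, mul_smul_comm, smul_mul_assoc]

omit [CharZero K] in
theorem ex_comm (N : ℕ) (D z : A) (h : D * z = z * D) : ex K N D * z = z * ex K N D := by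
  unfold ex
  rw [mul_sum, sum_mul]
  refine sum_congr rfl fun k _ => ?_
  have hc : Commute D z := h
  rw [mul_smul_comm, smul_mul_assoc, (hc.pow_left k).eq]

end Pool.Agent.Helper40.TF
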