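import Pool.Agent.Helper40.TF.TorsionFree
import Pool.Agent.Helper40.TF.CenterQuot
import Pool.Agent.Helper40.TF.EvProd

/-!
PROJECT TF, module TF-30. Groups without small torsion.

`bound2` (fixed `n ≥ 2`, `d`): let `c` be the number of `tf_bound n d`. Suppose no `P` works: for every `P` there are a nilpotent group without elements of prime order `≤ P`, generated by `d` left `n`-Engel elements, of class `≥ c + 1`; by `exists_quot` one of class exactly `c + 1`. Choose such `G N` for `P = N`.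
`ev_prod` (with `hc` from `tf_bound`) gives `N` with `nilpotencyClass (G N) ≤ c`, contradiction.
`final`: `f n d`, `P n d` for `max n 2` and `d` (`Classical.choose`). Given `S` with `S.card ≤ d`: if `S` is empty then `G` is trivial (class `0`); otherwise there is `x : Fin d → G` with range `S` (`d ≥ 1`, enumerate and repeat an element; compare `exists_fin_family` in `Helper45/Eng`). The Engel condition for `n` implies the one for
`max n 2` (`Function.iterate_add_apply`; the map fixes `1`: `1⁻¹ * a⁻¹ * 1 * a = 1`).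
-/

set_option autoImplicit false

namespace Pool.Agent.Helper40.TF

theorem bound2 (n d : ℕ) (hn : 2 ≤ n) : ∃ c P : ℕ, ∀ (G : Type) [Group G] [Group.IsNilpotent G] (x : Fin d → G),
    Subgroup.closure (Set.range x) = ⊤ →
    (∀ i, ∀ z : G, (fun z : G => z⁻¹ * (x i)⁻¹ * z * x i)^[n] z = 1) →
    (∀ p, p ≤ P → p.Prime → ∀ g : G, g ^ p = 1 → g = 1) → Group.nilpotencyClass G ≤ c := by
  classical
  obtain ⟨c, hc⟩ := tf_bound n d hn
  refine ⟨c, ?_⟩
  by_contra hcon
  push Not at hcon
  have key : ∀ N : ℕ, ∃ (Q : Type) (_ : Group Q) (_ : Group.IsNilpotent Q) (x' : Fin d → Q),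
      Subgroup.closure (Set.range x') = ⊤ ∧
      (∀ i, ∀ y : Q, (fun y : Q => y⁻¹ * (x' i)⁻¹ * y * x' i)^[n] y = 1) ∧
      (∀ p, p ≤ N → p.Prime → ∀ g : Q, g ^ p = 1 → g = 1) ∧ Group.nilpotencyClass Q = c + 1 := by
    intro N
    obtain ⟨G, iG, iN, x, hx, hE, ht, hcl⟩ := hcon N
    exact exists_quot n d c N G x hx hE ht hcl
  choose Q iQ iN x' hx' hE' ht' hcl' using key
  obtain ⟨N, hN⟩ := @ev_prod n d c hc Q iQ iN x' hx' hE' ht' (fun N => (hcl' N).le)
  have h1 := hcl' N
  omega

private theorem engel_mono {G : Type} [Group G] {n m : ℕ} (h : n ≤ m) (a : G)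
    (ha : ∀ x : G, (fun y : G => y⁻¹ * a⁻¹ * y * a)^[n] x = 1) (x : G) :
    (fun y : G => y⁻¹ * a⁻¹ * y * a)^[m] x = 1 := by
  obtain ⟨k, rfl⟩ := Nat.exists_eq_add_of_le' h
  rw [Function.iterate_add_apply, ha x]
  exact Function.iterate_fixed (by simp) k

theorem final : ∃ f P : ℕ → ℕ → ℕ, ∀ (n d : ℕ) (G : Type) [Group G] [Group.IsNilpotent G] (S : Finset G),
    S.card ≤ d → Subgroup.closure (S : Set G) = ⊤ →
    (∀ a ∈ S, ∀ x : G, (fun y : G => y⁻¹ * a⁻¹ * y * a)^[n] x = 1) →
    (∀ p, p ≤ P n d → p.Prime → ∀ g : G, g ^ p = 1 → g = 1) → Group.nilpotencyClass G ≤ f n d := by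
  classical
  refine ⟨fun n d => (bound2 (max n 2) d (le_max_right n 2)).choose,
    fun n d => (bound2 (max n 2) d (le_max_right n 2)).choose_spec.choose, ?_⟩
  intro n d G _ _ S hd hS hE ht
  obtain ⟨e⟩ : Nonempty (Fin S.card ≃ S) := ⟨S.equivFin.symm⟩
  let x : Fin d → G := fun i => if h : (i : ℕ) < S.card then (e ⟨i, h⟩ : G) else 1
  have hx : Subgroup.closure (Set.range x) = ⊤ := by
    rw [eq_top_iff, ← hS, Subgroup.closure_le]
    intro a ha
    apply Subgroup.subset_closure
    let j : Fin S.card := e.symm ⟨a, ha⟩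
    refine ⟨⟨j, lt_of_lt_of_le j.2 hd⟩, ?_⟩
    change (if h : (j : ℕ) < S.card then (e ⟨j, h⟩ : G) else 1) = a
    rw [dif_pos j.2]
    change ((e (e.symm ⟨a, ha⟩) : S) : G) = a
    rw [e.apply_symm_apply]
  refine (bound2 (max n 2) d (le_max_right n 2)).choose_spec.choose_spec G x hx ?_ ht
  intro i z
  by_cases h : (i : ℕ) < S.card
  · have hxi : x i = (e ⟨i, h⟩ : G) := dif_pos h
    rw [hxi]
    exact engel_mono (le_max_left n 2) _ (hE _ (e ⟨i, h⟩).2) z
  · have hxi : x i = 1 := dif_neg h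
    rw [hxi]
    refine engel_mono (n := 1) (le_trans (by norm_num) (le_max_right n 2)) (1 : G) ?_ z
    intro y
    simp

end Pool.Agent.Helper40.TF
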