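import Pool.Agent.Helper40.TF.Final
import Pool.Agent.Helper40.TF.PiTors

/-!
PROJECT TF, module TF-32. The form without hypothesis on torsion.

`f, P` from `final`. Given `G`, `S`: `T` from `exists_piTors (P n d) G`. `Q = G ⧸ T` is nilpotent, generated by the image of `S` (`Finset.image`, card `≤ d`), its elements are left `n`-Engel (the quotient map commutes with the iterate), no elements of prime order `≤ P n d`. So `nilpotencyClass Q ≤ f n d`,
`lowerCentralSeries (f n d)` of `Q` is `⊥`, i.e. `lowerCentralSeries (f n d)` of `G` is contained in `T`.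
-/

set_option autoImplicit false

namespace Pool.Agent.Helper40.TF

theorem final2 : ∃ f P : ℕ → ℕ → ℕ, ∀ (n d : ℕ) (G : Type) [Group G] [Group.IsNilpotent G] (S : Finset G),
    S.card ≤ d → Subgroup.closure (S : Set G) = ⊤ →
    (∀ a ∈ S, ∀ x : G, (fun y : G => y⁻¹ * a⁻¹ * y * a)^[n] x = 1) →
    ∀ g ∈ (⊤ : Subgroup G).lowerCentralSeries (f n d),
      ∃ e : ℕ, 0 < e ∧ (∀ p, p.Prime → p ∣ e → p ≤ P n d) ∧ g ^ e = 1 := by
  classical
  obtain ⟨f, P, h⟩ := final
  refine ⟨f, P, ?_⟩
  intro n d G _ _ S hd hS hE g hg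
  obtain ⟨T, hT, h1, h2⟩ := exists_piTors (P n d) G
  have hcl : Group.nilpotencyClass (G ⧸ T) ≤ f n d := by
    refine h n d (G ⧸ T) (S.image (QuotientGroup.mk' T)) (Finset.card_image_le.trans hd) ?_ ?_ h2
    · rw [Finset.coe_image, ← MonoidHom.map_closure, hS]
      exact Subgroup.map_top_of_surjective _ (QuotientGroup.mk'_surjective T)
    · intro b hb x
      obtain ⟨a, ha, rfl⟩ := Finset.mem_image.1 hb
      obtain ⟨y, rfl⟩ := QuotientGroup.mk'_surjective T x
      have hsemi : Function.Semiconj (QuotientGroup.mk' T)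
          (fun y : G => y⁻¹ * a⁻¹ * y * a)
          (fun y : G ⧸ T => y⁻¹ * (QuotientGroup.mk' T a)⁻¹ * y * QuotientGroup.mk' T a) := by
        intro y
        simp only [map_mul, map_inv]
      have h3 := (hsemi.iterate_right n) y
      rw [← h3, hE a ha y, map_one]
  apply h1 g
  have hbot : (⊤ : Subgroup (G ⧸ T)).lowerCentralSeries (f n d) = ⊥ :=
    Subgroup.lowerCentralSeries_eq_bot_iff_nilpotencyClass_le.2 hcl
  have hmap : QuotientGroup.mk' T g ∈ (⊤ : Subgroup (G ⧸ T)).lowerCentralSeries (f n d) := by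
    have := Subgroup.lowerCentralSeries.map (QuotientGroup.mk' T) (f n d)
    exact this (Subgroup.mem_map_of_mem _ hg)
  rw [hbot, Subgroup.mem_bot] at hmap
  exact (QuotientGroup.eq_one_iff g).1 hmap

end Pool.Agent.Helper40.TF
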