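import Pool.Agent.Helper40.TF.Exp
import Pool.Agent.Helper40.TF.Dense

/-!
PROJECT TF, module TF-22. From a group to the Engel relation.

`wg a y k` is the Engel sequence in a group. `iter_eq`: for `k ≥ 1` (write `k + 1`), `(fun y => y⁻¹ a⁻¹ y a)^[k+1] y = a^(-k) * wg a y (k+1) * a^(k+1)`: induction on `k` (`Function.iterate_succ_apply'`): with `u = a^(-k) w a^(k+1)`, `u⁻¹ a⁻¹ u a = a^(-k-1) w⁻¹ a^k a⁻¹ a^(-k) w a^(k+1) a
= a^(-(k+1)) (w⁻¹ a⁻¹ w) a^(k+2)`. `grp_ws`: so the iterate is `1` iff `wg a y n = a⁻¹`.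
`ws_hom`: induction; `ρ` of a product.
`pr_int`: for a list `l` with integer scalars, `pr K N T l = ρ g` and `pr K N T (li l) = ρ g⁻¹` for some `g : G`: list induction; `ex K N ((z : K) • T i) = ρ (x i ^ z)`: for natural `z` by induction with `ex_add` (commuting, `(c • T i) ^ N = 0`), for negative `z`
`ex K N (-(k • T i))` is the inverse of `ex K N (k • T i)` (`ex_mul_neg`), and so is `ρ (x i ^ (-k))`.
`erel_of_group`: `erel_of_int`, `pr_int`, `ws_hom`, `grp_ws`; `ex K N (- T i) = ρ (x i)⁻¹`.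
-/

set_option autoImplicit false

namespace Pool.Agent.Helper40.TF

/-- The Engel sequence `w_0 = y`, `w_(k+1) = w_k⁻¹ a⁻¹ w_k` in a group. -/
def wg {G : Type*} [Group G] (a y : G) : ℕ → G
  | 0 => y
  | k + 1 => (wg a y k)⁻¹ * a⁻¹ * wg a y k

theorem grp_ws {G : Type*} [Group G] (a y : G) (n : ℕ) (hn : 1 ≤ n)
    (h : (fun y : G => y⁻¹ * a⁻¹ * y * a)^[n] y = 1) : wg a y n = a⁻¹ := by
  have iter : ∀ k : ℕ, (fun y : G => y⁻¹ * a⁻¹ * y * a)^[k + 1] y =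
      (a ^ k)⁻¹ * wg a y (k + 1) * a ^ (k + 1) := by
    intro k
    induction k with
    | zero =>
      rw [Function.iterate_succ_apply', Function.iterate_zero_apply, pow_zero, inv_one, one_mul,
        pow_one]
      rfl
    | succ k ih =>
      rw [Function.iterate_succ_apply', ih]
      show ((a ^ k)⁻¹ * wg a y (k + 1) * a ^ (k + 1))⁻¹ * a⁻¹ *
        ((a ^ k)⁻¹ * wg a y (k + 1) * a ^ (k + 1)) * a =
        (a ^ (k + 1))⁻¹ * ((wg a y (k + 1))⁻¹ * a⁻¹ * wg a y (k + 1)) * a ^ (k + 1 + 1)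
      generalize wg a y (k + 1) = w
      have e : a ^ k * a⁻¹ * (a ^ k)⁻¹ = a⁻¹ := by
        rw [mul_inv_eq_iff_eq_mul]
        exact ((Commute.refl a).pow_left k).inv_right.eq
      calc ((a ^ k)⁻¹ * w * a ^ (k + 1))⁻¹ * a⁻¹ * ((a ^ k)⁻¹ * w * a ^ (k + 1)) * a
          = (a ^ (k + 1))⁻¹ * w⁻¹ * (a ^ k * a⁻¹ * (a ^ k)⁻¹) * w * (a ^ (k + 1) * a) := by
            simp only [mul_inv_rev, inv_inv, mul_assoc]
        _ = (a ^ (k + 1))⁻¹ * (w⁻¹ * a⁻¹ * w) * a ^ (k + 1 + 1) := by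
            rw [e, ← pow_succ]
            simp only [mul_assoc]
  obtain ⟨k, rfl⟩ : ∃ k, n = k + 1 := ⟨n - 1, by omega⟩
  rw [iter k] at h
  have h1 : wg a y (k + 1) = a ^ k * (a ^ (k + 1))⁻¹ := by
    rw [eq_mul_inv_iff_mul_eq]
    rw [mul_assoc, inv_mul_eq_iff_eq_mul, mul_one] at h
    exact h
  rw [h1, pow_succ, mul_inv_rev, ← mul_assoc]
  rw [((Commute.refl a).pow_left k).inv_right.eq, mul_assoc, mul_inv_cancel, mul_one]

theorem ws_hom {G A : Type*} [Group G] [Ring A] (ρ : G →* A) (a y : G) (k : ℕ) :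
    ws (ρ a) (ρ a⁻¹) (ρ y) (ρ y⁻¹) k = (ρ (wg a y k), ρ (wg a y k)⁻¹) := by
  induction k with
  | zero => rfl
  | succ k ih =>
    rw [ws, ih]
    simp only [wg, mul_inv_rev, inv_inv, map_mul, mul_assoc]

variable {K A ι G : Type*} [Field K] [CharZero K] [Ring A] [Algebra K A] [Group G]

private theorem ex_neg_hom (N : ℕ) (hN : 1 ≤ N) (a : A) (ha : a ^ N = 0) (ρ : G →* A) (g : G)
    (h : ex K N a = ρ g) : ex K N (-a) = ρ g⁻¹ := by
  have h1 := ex_mul_neg (K := K) N hN a ha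
  rw [h] at h1
  calc ex K N (-a) = ρ g⁻¹ * ρ g * ex K N (-a) := by
        rw [← map_mul, inv_mul_cancel, map_one, one_mul]
    _ = ρ g⁻¹ := by rw [mul_assoc, h1, mul_one]

private theorem smul_pow_zero (N : ℕ) (a : A) (ha : a ^ N = 0) (c : K) : (c • a) ^ N = 0 := by
  rw [smul_pow, ha, smul_zero]

private theorem ex_nat_hom (N : ℕ) (hN : 1 ≤ N) (a : A) (ha : a ^ N = 0) (ρ : G →* A) (g : G)
    (h : ex K N a = ρ g) (n : ℕ) : ex K N ((n : K) • a) = ρ (g ^ n) := by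
  induction n with
  | zero => rw [Nat.cast_zero, zero_smul, ex_zero N hN, pow_zero, map_one]
  | succ n ih =>
    have e : ((n + 1 : ℕ) : K) • a = (n : K) • a + a := by
      rw [Nat.cast_add, Nat.cast_one, add_smul, one_smul]
    have hc : (n : K) • a * a = a * (n : K) • a := by
      rw [smul_mul_assoc, mul_smul_comm]
    rw [e, ex_add N _ _ hc (smul_pow_zero N a ha _) ha (by
      rw [← e]
      exact smul_pow_zero N a ha _), ih, h, pow_succ, map_mul]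

private theorem ex_int_hom (N : ℕ) (hN : 1 ≤ N) (a : A) (ha : a ^ N = 0) (ρ : G →* A) (g : G)
    (h : ex K N a = ρ g) (z : ℤ) : ex K N ((z : K) • a) = ρ (g ^ z) := by
  obtain ⟨n, rfl | rfl⟩ := z.eq_nat_or_neg
  · rw [Int.cast_natCast, zpow_natCast]
    exact ex_nat_hom N hN a ha ρ g h n
  · rw [Int.cast_neg, Int.cast_natCast, neg_smul, zpow_neg, zpow_natCast]
    exact ex_neg_hom N hN _ (smul_pow_zero N a ha _) ρ _ (ex_nat_hom N hN a ha ρ g h n)

theorem pr_int (N : ℕ) (hN : 1 ≤ N) (T : ι → A) (hT : ∀ i, T i ^ N = 0) (x : ι → G) (ρ : G →* A)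
    (hρ : ∀ i, ρ (x i) = ex K N (T i)) (l : List (ι × K)) (hl : ∀ p ∈ l, ∃ z : ℤ, p.2 = (z : K)) :
    ∃ g : G, pr K N T l = ρ g ∧ pr K N T (li l) = ρ g⁻¹ := by
  induction l with
  | nil =>
    refine ⟨1, ?_, ?_⟩
    · rw [map_one]
      rfl
    · rw [inv_one, map_one]
      rfl
  | cons p l ih =>
    obtain ⟨g, hg, hg'⟩ := ih fun q hq => hl q (List.mem_cons_of_mem _ hq)
    obtain ⟨z, hz⟩ := hl p List.mem_cons_self
    have h1 : ex K N (p.2 • T p.1) = ρ (x p.1 ^ z) := by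
      rw [hz]
      exact ex_int_hom N hN _ (hT _) ρ _ (hρ _).symm z
    have h2 : ex K N ((-p.2) • T p.1) = ρ (x p.1 ^ z)⁻¹ := by
      rw [neg_smul]
      exact ex_neg_hom N hN _ (smul_pow_zero N _ (hT _) _) ρ _ h1
    refine ⟨x p.1 ^ z * g, ?_, ?_⟩
    · rw [map_mul, ← h1, ← hg]
      simp only [pr, List.map_cons, List.prod_cons]
    · rw [mul_inv_rev, map_mul, ← h2, ← hg']
      simp only [pr, li, List.map_cons, List.reverse_cons, List.map_append, List.prod_append,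
        List.map_nil, List.prod_cons, List.prod_nil, mul_one]

theorem erel_of_group (N n : ℕ) (hN : 1 ≤ N) (hn : 1 ≤ n) (T : ι → A) (hT : ∀ i, T i ^ N = 0) (x : ι → G)
    (ρ : G →* A) (hρ : ∀ i, ρ (x i) = ex K N (T i))
    (hE : ∀ i, ∀ y : G, (fun y : G => y⁻¹ * (x i)⁻¹ * y * x i)^[n] y = 1) (i : ι) : ERel K N n T (T i) := by
  apply erel_of_int
  intro l hl
  obtain ⟨g, hg, hg'⟩ := pr_int N hN T hT x ρ hρ l hl
  have h1 : ex K N (T i) = ρ (x i) := (hρ i).symm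
  have h2 : ex K N (-T i) = ρ (x i)⁻¹ := ex_neg_hom N hN _ (hT i) ρ _ h1
  rw [hg, hg', h1, h2, ws_hom]
  show ρ (wg (x i) g n) = ρ (x i)⁻¹
  rw [grp_ws (x i) g n hn (hE i g)]

end Pool.Agent.Helper40.TF
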