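import Pool.Agent.Helper40.TF.Defs
import Pool.Agent.Helper39.TF.Nil

/-!
PROJECT TF, interface J: nil Jordan algebra of bounded index gives a sandwich (proof of helper39,
`Pool/Agent/Helper39/TF/Nil.lean`).
-/

set_option autoImplicit false

namespace Pool.Agent.Helper40.TF

open LieAlgebra

theorem sandwich_of_nil {K L : Type*} [Field K] [CharZero K] [LieRing L] [LieAlgebra K L] (e : L) (he : e ≠ 0)
    (h3 : ad K L e ^ 3 = 0) (m : ℕ) (h : ∀ z : L, ad K L e ^ 2 * (ad K L z ^ 2 * ad K L e ^ 2) ^ m = 0) :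
    ∃ w : L, w ≠ 0 ∧ ad K L w * ad K L w = 0 :=
  Pool.Agent.Helper39.TF.sandwich_of_nil e he h3 m h

end Pool.Agent.Helper40.TF
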