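import Pool.Agent.Helper40.TF.Defs

/-!
PROJECT TF, module TF-10. Top coefficients of the Engel sequence (pure ring theory).

`v, v'` polynomials over a ring `A` of degree `≤ D` with coefficient `T` at `D`, `D ≥ 1`. Let `w_k, w'_k` be the components of `ws v v' (C y) (C y') k`. Claim for `k ≥ 1`, by induction: both have degree `≤ (2^k - 1) D` and coefficient
`W_k = (y' T y T)^(2^(k-1) - 1) * (y' T y)` at `(2^k - 1) D`: `k = 1`: `w_1 = y' v' y`, `w'_1 = y' v y`. Step: `w_(k+1) = w'_k v' w_k`, `w'_(k+1) = w'_k v w_k`: degree `≤ 2 (2^k - 1) D + D = (2^(k+1) - 1) D`, coefficient `W_k T W_k` (`Polynomial.coeff_mul_add_eq_of_natDegree_le`),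
and `(q T)^m q T (q T)^m q = (q T)^(2m+1) q` for `q = y' T y`, `m = 2^(k-1) - 1`.
For `n ≥ 2`, `w_n = v'` has degree `≤ D < (2^n - 1) D`, so `W_n = 0`, and `T W_n T = T (y' T y T)^(2^(n-1)) = 0`.
-/

set_option autoImplicit false

namespace Pool.Agent.Helper40.TF

open Polynomial

private lemma top_aux {A : Type*} [Ring A] {f g h : A[X]} {a b c : ℕ} (hf : f.natDegree ≤ a)
    (hg : g.natDegree ≤ b) (hh : h.natDegree ≤ c) :
    (f * g * h).natDegree ≤ a + b + c ∧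
      (f * g * h).coeff (a + b + c) = f.coeff a * g.coeff b * h.coeff c := by
  have h1 : (f * g).natDegree ≤ a + b := natDegree_mul_le_of_le hf hg
  refine ⟨natDegree_mul_le_of_le h1 hh, ?_⟩
  rw [coeff_mul_add_eq_of_natDegree_le h1 hh, coeff_mul_add_eq_of_natDegree_le hf hg]

private lemma top_step {A : Type*} [Ring A] (v v' : A[X]) (T : A) (D : ℕ) (hv : v.natDegree ≤ D)
    (hv' : v'.natDegree ≤ D) (hT : v.coeff D = T) (hT' : v'.coeff D = T) (y y' : A) (k : ℕ) :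
    ((ws v v' (C y) (C y') (k + 1)).1.natDegree ≤ (2 ^ (k + 1) - 1) * D ∧
      (ws v v' (C y) (C y') (k + 1)).1.coeff ((2 ^ (k + 1) - 1) * D) =
        (y' * T * y * T) ^ (2 ^ k - 1) * (y' * T * y)) ∧
    ((ws v v' (C y) (C y') (k + 1)).2.natDegree ≤ (2 ^ (k + 1) - 1) * D ∧
      (ws v v' (C y) (C y') (k + 1)).2.coeff ((2 ^ (k + 1) - 1) * D) =
        (y' * T * y * T) ^ (2 ^ k - 1) * (y' * T * y)) := by
  induction k with
  | zero =>
    have e : (2 ^ (0 + 1) - 1) * D = 0 + D + 0 := by simp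
    have hy : (C y : A[X]).natDegree ≤ 0 := (natDegree_C y).le
    have hy' : (C y' : A[X]).natDegree ≤ 0 := (natDegree_C y').le
    rw [e]
    obtain ⟨h1, h2⟩ := top_aux hy' hv' hy
    obtain ⟨h3, h4⟩ := top_aux hy' hv hy
    refine ⟨⟨h1, ?_⟩, ⟨h3, ?_⟩⟩
    · change (C y' * v' * C y).coeff (0 + D + 0) = _
      rw [h2, coeff_C_zero, coeff_C_zero, hT']
      simp
    · change (C y' * v * C y).coeff (0 + D + 0) = _
      rw [h4, coeff_C_zero, coeff_C_zero, hT]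
      simp
  | succ k ih =>
    obtain ⟨⟨a1, a2⟩, ⟨b1, b2⟩⟩ := ih
    have hpos : 1 ≤ 2 ^ (k + 1) := Nat.one_le_two_pow
    have e : (2 ^ (k + 1 + 1) - 1) * D = (2 ^ (k + 1) - 1) * D + D + (2 ^ (k + 1) - 1) * D := by
      obtain ⟨m, hm⟩ := Nat.exists_eq_add_of_le hpos
      have h2 : 2 ^ (k + 1 + 1) = 2 * (1 + m) := by rw [pow_succ, hm]; ring
      rw [h2, hm]
      have h3 : 2 * (1 + m) - 1 = 2 * m + 1 := by omega
      have h4 : 1 + m - 1 = m := by omega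
      rw [h3, h4]
      ring
    have key : (y' * T * y * T) ^ (2 ^ k - 1) * (y' * T * y) * T *
        ((y' * T * y * T) ^ (2 ^ k - 1) * (y' * T * y)) =
        (y' * T * y * T) ^ (2 ^ (k + 1) - 1) * (y' * T * y) := by
      have hp : 1 ≤ 2 ^ k := Nat.one_le_two_pow
      have h1 : 2 ^ (k + 1) - 1 = (2 ^ k - 1) + 1 + (2 ^ k - 1) := by
        rw [pow_succ]
        omega
      rw [h1, pow_add, pow_add, pow_one]
      simp only [mul_assoc]
    rw [e]
    obtain ⟨h1, h2⟩ := top_aux b1 hv' a1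
    obtain ⟨h3, h4⟩ := top_aux b1 hv a1
    refine ⟨⟨h1, ?_⟩, ⟨h3, ?_⟩⟩
    · change ((ws v v' (C y) (C y') (k + 1)).2 * v' * (ws v v' (C y) (C y') (k + 1)).1).coeff _ = _
      rw [h2, a2, b2, hT', key]
    · change ((ws v v' (C y) (C y') (k + 1)).2 * v * (ws v v' (C y) (C y') (k + 1)).1).coeff _ = _
      rw [h4, a2, b2, hT, key]

theorem top_coeff {A : Type*} [Ring A] (v v' : A[X]) (T : A) (D : ℕ) (hD : 1 ≤ D) (hv : v.natDegree ≤ D)
    (hv' : v'.natDegree ≤ D) (hT : v.coeff D = T) (hT' : v'.coeff D = T) (y y' : A) (n : ℕ) (hn : 2 ≤ n)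
    (h : (ws v v' (C y) (C y') n).1 = v') : T * (y' * T * y * T) ^ (2 ^ (n - 1)) = 0 := by
  obtain ⟨k, rfl⟩ : ∃ k, n = k + 1 := ⟨n - 1, by omega⟩
  obtain ⟨⟨-, h1⟩, -⟩ := top_step v v' T D hv hv' hT hT' y y' k
  have hk : 1 ≤ k := by omega
  have h4 : 4 ≤ 2 ^ (k + 1) := by
    calc 4 = 2 ^ (1 + 1) := by norm_num
      _ ≤ 2 ^ (k + 1) := Nat.pow_le_pow_right (by norm_num) (by omega)
  have hlt : D < (2 ^ (k + 1) - 1) * D := by
    have h5 : 3 ≤ 2 ^ (k + 1) - 1 := by omega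
    nlinarith
  rw [h, coeff_eq_zero_of_natDegree_lt (lt_of_le_of_lt hv' hlt)] at h1
  have hp : 1 ≤ 2 ^ k := Nat.one_le_two_pow
  have h6 : 2 ^ (k + 1 - 1) = (2 ^ k - 1) + 1 := by
    rw [Nat.add_sub_cancel]
    omega
  rw [h6, pow_succ]
  have h7 : T * ((y' * T * y * T) ^ (2 ^ k - 1) * (y' * T * y * T)) =
      T * ((y' * T * y * T) ^ (2 ^ k - 1) * (y' * T * y)) * T := by
    simp only [mul_assoc]
  rw [h7, ← h1, mul_zero, zero_mul]

end Pool.Agent.Helper40.TF
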