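import Pool.Agent.Helper40.TF.Exp
import Pool.Agent.Helper40.TF.Poly
import Pool.Agent.Helper40.TF.Trick

/-!
PROJECT TF, module TF-12. The automorphism `exp (ad (X + s F g₁ + s² F g₂))` as a polynomial in `s`.

`E = ad X`, `F = E ^ M`, `M ≥ 2`, `B_s = ad (s F g₁ + s² F g₂) = s b₁ + s² b₂`, `b_j = ad (F g_j)`. `E` commutes with `b_j` (`trick_comm`), products of three `b`s are `0` (`trick_cube`), so `B_s ^ 3 = 0`; `E b_j b_k = 0` (`trick_E`), `E ^ M b_j = 0` (`trick_F_ad`).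
`(E + B_s)^(M+1) = E^(M+1) + (M+1) E^M B_s + (terms with B_s² and a factor E, as M + 1 ≥ 3) = 0`; so `(E + B_s)^N = 0`, `N ≥ M + 1 ≥ 3`, and `ex_add`: `exp (E + B_s) = exp E (1 + B_s + B_s²/2)`, `B_s² = s² b₁² + s³ (b₁ b₂ + b₂ b₁) + s⁴ b₂²`.
So `V = C (exp E) * (1 + (X b₁ + X² b₂) + 2⁻¹ (X² b₁² + X³ (b₁ b₂ + b₂ b₁) + X⁴ b₂²))`, `V' = C (exp (-E)) * (1 - (..) + 2⁻¹ (..))`. 
Case `δ = 2`: degree `≤ 4`, coefficient of `X⁴` is `exp (± E) 2⁻¹ b₂² = 2⁻¹ b₂²` since `E b₂² = 0`. Case `δ = 1` and `F g₂ = 0`: `b₂ = 0`, degree `≤ 2`, coefficient `exp (± E) 2⁻¹ b₁² = 2⁻¹ b₁²`.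
-/

set_option autoImplicit false

namespace Pool.Agent.Helper40.TF

open Finset LieAlgebra Polynomial

section
variable {K A : Type*} [Field K] [CharZero K] [Ring A] [Algebra K A]

omit [CharZero K] in
private lemma ex_three (B : A) : ex K 3 B = 1 + B + (2 : K)⁻¹ • (B * B) := by
  unfold ex
  simp [Finset.sum_range_succ, pow_two, Nat.factorial]

omit [CharZero K] in
private lemma ex_mul_of_zero (N : ℕ) (hN : 1 ≤ N) (E Z : A) (h : E * Z = 0) : ex K N E * Z = Z := by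
  unfold ex
  rw [Finset.sum_mul, Finset.sum_eq_single 0]
  · simp
  · intro k _ hk
    obtain ⟨k', rfl⟩ : ∃ k', k = k' + 1 := ⟨k - 1, by omega⟩
    rw [smul_mul_assoc, pow_succ, mul_assoc, h, mul_zero, smul_zero]
  · intro h0
    exact absurd (Finset.mem_range.2 (by omega)) h0

private lemma exEB (N M : ℕ) (hM : 2 ≤ M) (hMN : M + 1 ≤ N) (E B : A) (h0 : E ^ (M + 1) = 0)
    (hc : E * B = B * E) (hF : E ^ M * B = 0) (hE : E * (B * B) = 0) (hB : B * B * B = 0) :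
    ex K N (E + B) = ex K N E + ex K N E * B + (2 : K)⁻¹ • (B * B) := by
  have hB3 : B ^ 3 = 0 := by rw [pow_succ, pow_two]; exact hB
  have hBN : B ^ N = 0 := pow_eq_zero_of_le (by omega) hB3
  have hEN : E ^ N = 0 := pow_eq_zero_of_le hMN h0
  have hs : (E + B) ^ (M + 1) = 0 := by
    rw [(show Commute E B from hc).add_pow]
    refine Finset.sum_eq_zero fun k hk => ?_
    rw [Finset.mem_range] at hk
    have h1 : E ^ k * B ^ (M + 1 - k) = 0 := by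
      rcases lt_trichotomy k M with h | h | h
      · rcases Nat.eq_zero_or_pos k with h1 | h1
        · subst h1
          rw [pow_zero, one_mul]
          exact pow_eq_zero_of_le (by omega) hB3
        · obtain ⟨k', rfl⟩ : ∃ k', k = k' + 1 := ⟨k - 1, by omega⟩
          obtain ⟨j, hj⟩ : ∃ j, M + 1 - (k' + 1) = 2 + j := ⟨M + 1 - (k' + 1) - 2, by omega⟩
          rw [hj, pow_add B 2 j, pow_two B, pow_succ E, mul_assoc, ← mul_assoc E, hE, zero_mul, mul_zero]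
      · rw [h, show M + 1 - M = 1 by omega, pow_one]
        exact hF
      · rw [show k = M + 1 by omega, h0, zero_mul]
    rw [h1, zero_mul]
  have hsN := pow_eq_zero_of_le hMN hs
  rw [ex_add N E B hc hEN hBN hsN, ex_trunc 3 N (by omega) B hB3, ex_three, mul_add, mul_add,
    mul_one, mul_smul_comm, ex_mul_of_zero N (by omega) E (B * B) hE]

omit [CharZero K] in
private lemma ev_mon (s : K) (c : A) (k : ℕ) : ev K s (C c * X ^ k) = s ^ k • c := by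
  rw [map_mul, map_pow, ev_C, ev_X, ← map_pow, ← Algebra.commutes, Algebra.smul_def]

omit [CharZero K] in
private lemma mon3 (c0 c1 c2 : A) : ∃ V : A[X], (∀ s : K, ev K s V = c0 + s • c1 + s ^ 2 • c2) ∧
    V.natDegree ≤ 2 ∧ V.coeff 2 = c2 := by
  refine ⟨C c0 * X ^ 0 + C c1 * X ^ 1 + C c2 * X ^ 2, fun s => ?_, ?_, ?_⟩
  · rw [map_add, map_add, ev_mon, ev_mon, ev_mon, pow_zero, one_smul, pow_one]
  · compute_degree
  · simp [coeff_X_pow]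

omit [CharZero K] in
private lemma mon5 (c0 c1 c2 c3 c4 : A) :
    ∃ V : A[X], (∀ s : K, ev K s V = c0 + s • c1 + s ^ 2 • c2 + s ^ 3 • c3 + s ^ 4 • c4) ∧
    V.natDegree ≤ 4 ∧ V.coeff 4 = c4 := by
  refine ⟨C c0 * X ^ 0 + C c1 * X ^ 1 + C c2 * X ^ 2 + C c3 * X ^ 3 + C c4 * X ^ 4,
    fun s => ?_, ?_, ?_⟩
  · rw [map_add, map_add, map_add, map_add, ev_mon, ev_mon, ev_mon, ev_mon, ev_mon, pow_zero, one_smul, pow_one]
  · compute_degree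
  · simp [coeff_X_pow]

omit [CharZero K] in
private lemma sq_expand (s : K) (b₁ b₂ : A) : (s • b₁ + s ^ 2 • b₂) * (s • b₁ + s ^ 2 • b₂) =
    s ^ 2 • (b₁ * b₁) + s ^ 3 • (b₁ * b₂ + b₂ * b₁) + s ^ 4 • (b₂ * b₂) := by
  simp only [mul_add, add_mul, smul_mul_smul_comm, smul_add]
  rw [show s * s ^ 2 = s ^ 3 by ring, show s ^ 2 * s = s ^ 3 by ring, ← pow_two s,
    show s ^ 2 * s ^ 2 = s ^ 4 by ring]
  abel

/-- The polynomials for `E`, `b₁`, `b₂`. -/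
private lemma polys (N M : ℕ) (hM : 2 ≤ M) (hMN : M + 1 ≤ N) (E b₁ b₂ : A) (h0 : E ^ (M + 1) = 0)
    (B : K → A) (hB : ∀ s, B s = s • b₁ + s ^ 2 • b₂) (hc : ∀ s, E * B s = B s * E)
    (hF : ∀ s, E ^ M * B s = 0) (hE : ∀ s, E * (B s * B s) = 0) (hB3 : ∀ s, B s * B s * B s = 0) :
    (∃ V : A[X], (∀ s : K, ev K s V = ex K N (E + B s)) ∧ V.natDegree ≤ 4 ∧
      V.coeff 4 = (2 : K)⁻¹ • (b₂ * b₂)) ∧
    (b₂ = 0 → ∃ V : A[X], (∀ s : K, ev K s V = ex K N (E + B s)) ∧ V.natDegree ≤ 2 ∧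
      V.coeff 2 = (2 : K)⁻¹ • (b₁ * b₁)) := by
  have hf : ∀ s : K, ex K N (E + B s) = ex K N E + ex K N E * (s • b₁ + s ^ 2 • b₂) +
      (2 : K)⁻¹ • ((s • b₁ + s ^ 2 • b₂) * (s • b₁ + s ^ 2 • b₂)) := fun s => by
    rw [exEB N M hM hMN E (B s) h0 (hc s) (hF s) (hE s) (hB3 s), hB s]
  constructor
  · obtain ⟨V, h1, h2, h3⟩ := mon5 (K := K) (ex K N E) (ex K N E * b₁)
      (ex K N E * b₂ + (2 : K)⁻¹ • (b₁ * b₁)) ((2 : K)⁻¹ • (b₁ * b₂ + b₂ * b₁)) ((2 : K)⁻¹ • (b₂ * b₂))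
    refine ⟨V, fun s => ?_, h2, h3⟩
    rw [h1, hf, sq_expand, mul_add, mul_smul_comm, mul_smul_comm]
    module
  · intro hb
    obtain ⟨V, h1, h2, h3⟩ := mon3 (K := K) (ex K N E) (ex K N E * b₁) ((2 : K)⁻¹ • (b₁ * b₁))
    refine ⟨V, fun s => ?_, h2, h3⟩
    rw [h1, hf, sq_expand, mul_add, mul_smul_comm, mul_smul_comm, hb]
    simp only [mul_zero, zero_mul, smul_zero, add_zero]
    rw [smul_comm (2 : K)⁻¹]

/-- The polynomials for `-E`, `-b₁`, `-b₂`. -/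
private lemma polysN (N M : ℕ) (hM : 2 ≤ M) (hMN : M + 1 ≤ N) (E b₁ b₂ : A) (h0 : E ^ (M + 1) = 0)
    (B : K → A) (hB : ∀ s, B s = s • b₁ + s ^ 2 • b₂) (hc : ∀ s, E * B s = B s * E)
    (hF : ∀ s, E ^ M * B s = 0) (hE : ∀ s, E * (B s * B s) = 0) (hB3 : ∀ s, B s * B s * B s = 0) :
    (∃ V : A[X], (∀ s : K, ev K s V = ex K N (-(E + B s))) ∧ V.natDegree ≤ 4 ∧
      V.coeff 4 = (2 : K)⁻¹ • (b₂ * b₂)) ∧
    (b₂ = 0 → ∃ V : A[X], (∀ s : K, ev K s V = ex K N (-(E + B s))) ∧ V.natDegree ≤ 2 ∧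
      V.coeff 2 = (2 : K)⁻¹ • (b₁ * b₁)) := by
  obtain ⟨h4, h2⟩ := polys N M hM hMN (-E) (-b₁) (-b₂) (by rw [neg_pow, h0, mul_zero])
    (fun s => -B s) (fun s => by rw [hB, smul_neg, smul_neg, neg_add])
    (fun s => by rw [neg_mul_neg, neg_mul_neg, hc])
    (fun s => by rw [neg_pow, mul_neg, mul_assoc, hF, mul_zero, neg_zero])
    (fun s => by rw [neg_mul_neg, neg_mul, hE, neg_zero])
    (fun s => by rw [neg_mul_neg, mul_neg, hB3, neg_zero])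
  simp only [neg_mul_neg, ← neg_add, neg_eq_zero] at h4 h2
  exact ⟨h4, h2⟩

end

variable {K L : Type*} [Field K] [CharZero K] [LieRing L] [LieAlgebra K L]

theorem vpoly (N M : ℕ) (hM : 2 ≤ M) (hMN : M + 1 ≤ N) (X : L) (h0 : ad K L X ^ (M + 1) = 0) (g₁ g₂ e : L) (δ : ℕ)
    (hδ : (δ = 1 ∧ (ad K L X ^ M) g₂ = 0 ∧ e = (ad K L X ^ M) g₁) ∨ (δ = 2 ∧ e = (ad K L X ^ M) g₂)) :
    ∃ V V' : (Module.End K L)[X],
      (∀ s : K, ev K s V = ex K N (ad K L (X + (s • (ad K L X ^ M) g₁ + s ^ 2 • (ad K L X ^ M) g₂)))) ∧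
      (∀ s : K, ev K s V' = ex K N (-ad K L (X + (s • (ad K L X ^ M) g₁ + s ^ 2 • (ad K L X ^ M) g₂)))) ∧
      V.natDegree ≤ 2 * δ ∧ V'.natDegree ≤ 2 * δ ∧ V.coeff (2 * δ) = (2 : K)⁻¹ • ad K L e ^ 2 ∧
      V'.coeff (2 * δ) = (2 : K)⁻¹ • ad K L e ^ 2 := by
  have key : ∀ s : K, s • (ad K L X ^ M) g₁ + s ^ 2 • (ad K L X ^ M) g₂ =
      (ad K L X ^ M) (s • g₁ + s ^ 2 • g₂) := fun s => by rw [map_add, map_smul, map_smul]
  have hB : ∀ s : K, ad K L ((ad K L X ^ M) (s • g₁ + s ^ 2 • g₂)) =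
      s • ad K L ((ad K L X ^ M) g₁) + s ^ 2 • ad K L ((ad K L X ^ M) g₂) := fun s => by
    rw [← key, map_add, map_smul, map_smul]
  have e1 : ∀ s : K, ad K L (X + (s • (ad K L X ^ M) g₁ + s ^ 2 • (ad K L X ^ M) g₂)) =
      ad K L X + ad K L ((ad K L X ^ M) (s • g₁ + s ^ 2 • g₂)) := fun s => by
    rw [key, map_add (ad K L)]
  have t1 := fun s : K => trick_comm X M h0 (s • g₁ + s ^ 2 • g₂)
  have t2 := fun s : K => (trick_F_ad X M (by omega) h0 (s • g₁ + s ^ 2 • g₂)).1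
  have t3 := fun s : K => (trick_E X M h0 (s • g₁ + s ^ 2 • g₂) (s • g₁ + s ^ 2 • g₂)).1
  have t4 := fun s : K => trick_cube X M (by omega) h0 (s • g₁ + s ^ 2 • g₂)
    (s • g₁ + s ^ 2 • g₂) (s • g₁ + s ^ 2 • g₂)
  obtain ⟨b₁, hb₁⟩ : ∃ b₁ : Module.End K L, b₁ = ad K L ((ad K L X ^ M) g₁) := ⟨_, rfl⟩
  obtain ⟨b₂, hb₂⟩ : ∃ b₂ : Module.End K L, b₂ = ad K L ((ad K L X ^ M) g₂) := ⟨_, rfl⟩
  obtain ⟨B, hBd⟩ : ∃ B : K → Module.End K L,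
    ∀ s, B s = ad K L ((ad K L X ^ M) (s • g₁ + s ^ 2 • g₂)) := ⟨_, fun _ => rfl⟩
  have e2 : (δ = 1 ∧ b₂ = 0 ∧ ad K L e = b₁) ∨ (δ = 2 ∧ ad K L e = b₂) := by
    rcases hδ with ⟨h, hg, he⟩ | ⟨h, he⟩
    · exact Or.inl ⟨h, by rw [hb₂, hg, map_zero], by rw [he, hb₁]⟩
    · exact Or.inr ⟨h, by rw [he, hb₂]⟩
  simp only [← hBd, ← hb₁, ← hb₂] at hB e1 t1 t2 t3 t4
  simp only [e1]
  obtain ⟨hp4, hp2⟩ := polys N M hM hMN (ad K L X) b₁ b₂ h0 B hB t1 t2 t3 t4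
  obtain ⟨hn4, hn2⟩ := polysN N M hM hMN (ad K L X) b₁ b₂ h0 B hB t1 t2 t3 t4
  rcases e2 with ⟨hd, hb, he⟩ | ⟨hd, he⟩
  · obtain ⟨V, h1, h2, h3⟩ := hp2 hb
    obtain ⟨V', h1', h2', h3'⟩ := hn2 hb
    rw [hd, he]
    exact ⟨V, V', h1, h1', h2, h2', by rw [mul_one, h3, pow_two], by rw [mul_one, h3', pow_two]⟩
  · obtain ⟨V, h1, h2, h3⟩ := hp4
    obtain ⟨V', h1', h2', h3'⟩ := hn4
    rw [hd, he]
    exact ⟨V, V', h1, h1', h2, h2', by rw [show 2 * 2 = 4 from rfl, h3, pow_two],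
      by rw [show 2 * 2 = 4 from rfl, h3', pow_two]⟩

end Pool.Agent.Helper40.TF
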