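import Pool.Agent.Helper40.TF.Exp

/-!
PROJECT TF, module TF-20. Logarithms of unipotent elements.

`u = 1 + ν`, `ν ^ n = 0`. Let `S_k` be the span of the powers `ν ^ j`, `j ≥ k` (closed under multiplication: `S_k S_l ⊆ S_(k+l)`; `S_n = 0`). Claim by induction on `k ≥ 1`: there is `T ∈ S_1` with `ex K n T - u ∈ S_k`. `k = 1`: `T = 0`, `1 - u = -ν` (`n ≥ 1`).
Step: `δ = u - ex K n T ∈ S_k`, `T' = T + δ`; `ex K n (T + δ) - ex K n T - δ ∈ S_(k+1)`: `(T + δ)^j - T^j ∈ S_(k+1)` for `j ≥ 2` (everything commutes, or just expand: each term of the difference contains `δ` and one more factor in `S_1`), and for `j = 1` the difference is `δ`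
(if `n = 1` then `ν = 0` and everything is trivial: `T = 0`). For `k = n`: `ex K n T = u`; and `T ∈ S_1` gives `T ^ n ∈ S_n = 0`.
(Convenient: do it with polynomials, `T = aeval ν p`, `X ∣ p`, and divisibility by `X ^ k`.)
-/

set_option autoImplicit false

namespace Pool.Agent.Helper40.TF

open Polynomial Finset in
theorem exists_log_poly {K : Type*} [Field K] (m : ℕ) (k : ℕ) (hk : k + 1 ≤ m + 2) :
    ∃ p : K[X], X ∣ p ∧ X ^ (k + 1) ∣ ex K (m + 2) p - (1 + X) := by
  induction k with
  | zero =>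
    refine ⟨0, dvd_zero _, ?_⟩
    rw [ex_zero (m + 2) (by omega)]
    refine ⟨-1, ?_⟩
    ring
  | succ k ih =>
    obtain ⟨p, hp, hδ⟩ := ih (by omega)
    set δ : K[X] := 1 + X - ex K (m + 2) p with hδdef
    have hδ' : X ^ (k + 1) ∣ δ := by
      have : δ = -(ex K (m + 2) p - (1 + X)) := by rw [hδdef]; ring
      rw [this]
      exact (dvd_neg).2 hδ
    have hXδ : X ∣ δ := (dvd_pow_self X (Nat.succ_ne_zero k)).trans hδ'
    refine ⟨p + δ, dvd_add hp hXδ, ?_⟩
    have hex : ∀ q : K[X], ex K (m + 2) q =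
        ∑ j ∈ range m, (((j + 2).factorial : K)⁻¹) • q ^ (j + 2) + q + 1 := by
      intro q
      unfold ex
      rw [sum_range_succ', sum_range_succ']
      simp
    have h1 : ex K (m + 2) (p + δ) - (1 + X) =
        ∑ j ∈ range m, (((j + 2).factorial : K)⁻¹) • ((p + δ) ^ (j + 2) - p ^ (j + 2)) := by
      have h2 : (1 + X : K[X]) = δ + ex K (m + 2) p := by rw [hδdef]; ring
      rw [h2, hex (p + δ), hex p]
      simp only [smul_sub, sum_sub_distrib]
      ring
    rw [h1]
    apply dvd_sum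
    intro j _
    rw [smul_eq_C_mul]
    apply Dvd.dvd.mul_left
    rw [← geom_sum₂_mul, add_sub_cancel_left, pow_succ' X (k + 1)]
    apply mul_dvd_mul _ hδ'
    apply dvd_sum
    intro i hi
    rw [mem_range] at hi
    by_cases hi0 : i = 0
    · subst hi0
      apply Dvd.dvd.mul_left
      exact hp.trans (dvd_pow_self p (by omega))
    · apply Dvd.dvd.mul_right
      exact (dvd_add hp hXδ).trans (dvd_pow_self _ hi0)

open Polynomial Finset in
theorem exists_log {K A : Type*} [Field K] [CharZero K] [Ring A] [Algebra K A] (n : ℕ) (hn : 1 ≤ n) (u : A)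
    (hu : (u - 1) ^ n = 0) : ∃ T : A, T ^ n = 0 ∧ ex K n T = u := by
  rcases Nat.lt_or_ge n 2 with h | h
  · have hn1 : n = 1 := by omega
    subst hn1
    rw [pow_one] at hu
    refine ⟨0, by simp, ?_⟩
    rw [ex_zero 1 le_rfl]
    exact (sub_eq_zero.1 hu).symm
  · obtain ⟨m, rfl⟩ := Nat.exists_eq_add_of_le' h
    obtain ⟨p, hp, hd⟩ := exists_log_poly (K := K) m (m + 1) le_rfl
    have hz : ∀ q : K[X], X ^ (m + 2) ∣ q → aeval (u - 1) q = 0 := by
      intro q hq
      obtain ⟨r, rfl⟩ := hq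
      rw [map_mul, map_pow, aeval_X, hu, zero_mul]
    refine ⟨aeval (u - 1) p, ?_, ?_⟩
    · rw [← map_pow]
      exact hz _ (pow_dvd_pow_of_dvd hp _)
    · have h1 : aeval (u - 1) (ex K (m + 2) p) = ex K (m + 2) (aeval (u - 1) p) := by
        unfold ex
        rw [map_sum]
        refine sum_congr rfl fun k _ => ?_
        rw [map_smul, map_pow]
      have h2 := hz _ hd
      rw [map_sub, h1, map_add, map_one, aeval_X, sub_eq_zero] at h2
      rw [h2]
      abel

end Pool.Agent.Helper40.TF
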