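import Pool.Agent.Helper40.TF.AdExp
import Pool.Agent.Helper40.TF.Poly

/-!
PROJECT TF, module TF-6. Orbits of the group generated by the exponentials span ideals.

`stable_gen`: `S` stable under all `ex K N (c • ad (X i))`. For `x ∈ S`: `∑ k < N, c ^ k • ((k!)⁻¹ • (ad (X i)) ^ k x) ∈ S` for all `c`, so by `coeff_mem` (coefficient `k = 1` if `2 ≤ N`; if `N = 1` then `ad (X i) = 0`) `⁅X i, x⁆ ∈ S`.
`stable_ad`: the set of `z` with `∀ x ∈ S, ⁅z, x⁆ ∈ S` is a Lie subalgebra (Jacobi: `lie_lie`) containing all `X i`, so everything (`LieSubalgebra.lieSpan_le`).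
`orbit_ideal`: the span of `{pr l w}` is stable under `ex K N (c • ad (X i)) = pr [(i, c)]` (`pr_append`); `Submodule.span_induction`.
`orbit_span`: let `S` be the span; by `stable_ad` it is stable under brackets with everything, so it is a Lie subalgebra (even an ideal) containing `X i = pr [] (X i)`; so it is everything.
-/

set_option autoImplicit false

namespace Pool.Agent.Helper40.TF

open Finset LieAlgebra

variable {K L ι : Type*} [Field K] [CharZero K] [LieRing L] [LieAlgebra K L]

theorem stable_gen (N : ℕ) (hN : 1 ≤ N) (X : ι → L) (hX : ∀ i, ad K L (X i) ^ N = 0) (S : Submodule K L)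
    (hS : ∀ (i : ι) (c : K), ∀ x ∈ S, ex K N (c • ad K L (X i)) x ∈ S) (i : ι) (x : L) (hx : x ∈ S) : ⁅X i, x⁆ ∈ S := by
  rcases Nat.lt_or_ge 1 N with h1 | h1
  · have h2 : ∀ c : K, ∑ k ∈ range N, c ^ k • (((k.factorial : K)⁻¹) • (ad K L (X i) ^ k) x) ∈ S := by
      intro c
      have h3 := hS i c x hx
      have h4 : ex K N (c • ad K L (X i)) x =
          ∑ k ∈ range N, c ^ k • (((k.factorial : K)⁻¹) • (ad K L (X i) ^ k) x) := by
        unfold ex
        rw [LinearMap.sum_apply]
        refine Finset.sum_congr rfl fun k _ => ?_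
        rw [smul_pow, LinearMap.smul_apply, LinearMap.smul_apply, smul_comm]
      rw [← h4]
      exact h3
    have h5 := coeff_mem N (fun k => ((k.factorial : K)⁻¹) • (ad K L (X i) ^ k) x) S h2 1 h1
    simpa using h5
  · have h2 : N = 1 := le_antisymm h1 hN
    have h3 := hX i
    rw [h2, pow_one] at h3
    have h4 : ⁅X i, x⁆ = 0 := by
      rw [← LieAlgebra.ad_apply (R := K), h3, LinearMap.zero_apply]
    rw [h4]
    exact S.zero_mem

theorem stable_ad (N : ℕ) (hN : 1 ≤ N) (X : ι → L) (hX : ∀ i, ad K L (X i) ^ N = 0)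
    (hg : LieSubalgebra.lieSpan K L (Set.range X) = ⊤) (S : Submodule K L)
    (hS : ∀ (i : ι) (c : K), ∀ x ∈ S, ex K N (c • ad K L (X i)) x ∈ S) (z x : L) (hx : x ∈ S) : ⁅z, x⁆ ∈ S := by
  let P : LieSubalgebra K L :=
    { carrier := {z | ∀ x ∈ S, ⁅z, x⁆ ∈ S}
      add_mem' := by
        intro a b ha hb x hx
        rw [add_lie]
        exact S.add_mem (ha x hx) (hb x hx)
      zero_mem' := by
        intro x _
        rw [zero_lie]
        exact S.zero_mem
      smul_mem' := by
        intro c a ha x hx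
        rw [smul_lie]
        exact S.smul_mem c (ha x hx)
      lie_mem' := by
        intro a b ha hb x hx
        rw [lie_lie]
        exact S.sub_mem (ha _ (hb x hx)) (hb _ (ha x hx)) }
  have h1 : LieSubalgebra.lieSpan K L (Set.range X) ≤ P := by
    rw [LieSubalgebra.lieSpan_le]
    rintro _ ⟨i, rfl⟩ y hy
    exact stable_gen N hN X hX S hS i y hy
  have h2 : z ∈ P := by
    apply h1
    rw [hg]
    exact LieSubalgebra.mem_top z
  exact h2 x hx

omit [CharZero K] in
private theorem pr_cons' {A : Type*} [Ring A] [Algebra K A] (N : ℕ) (T : ι → A) (i : ι) (c : K)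
    (l : List (ι × K)) : pr K N T ((i, c) :: l) = ex K N (c • T i) * pr K N T l := by
  unfold pr
  rw [List.map_cons, List.prod_cons]

theorem orbit_ideal (N : ℕ) (hN : 1 ≤ N) (X : ι → L) (hX : ∀ i, ad K L (X i) ^ N = 0)
    (hg : LieSubalgebra.lieSpan K L (Set.range X) = ⊤) (w z x : L)
    (hx : x ∈ Submodule.span K {y : L | ∃ l : List (ι × K), y = pr K N (fun i => ad K L (X i)) l w}) :
    ⁅z, x⁆ ∈ Submodule.span K {y : L | ∃ l : List (ι × K), y = pr K N (fun i => ad K L (X i)) l w} := by
  refine stable_ad N hN X hX hg _ ?_ z x hx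
  intro i c y hy
  induction hy using Submodule.span_induction with
  | mem y hy =>
    obtain ⟨l, rfl⟩ := hy
    apply Submodule.subset_span
    refine ⟨(i, c) :: l, ?_⟩
    rw [pr_cons', Module.End.mul_apply]
  | zero =>
    rw [map_zero]
    exact Submodule.zero_mem _
  | add a b _ _ ha hb =>
    rw [map_add]
    exact Submodule.add_mem _ ha hb
  | smul r a _ ha =>
    rw [map_smul]
    exact Submodule.smul_mem _ _ ha

theorem orbit_span (N : ℕ) (hN : 1 ≤ N) (X : ι → L) (hX : ∀ i, ad K L (X i) ^ N = 0)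
    (hg : LieSubalgebra.lieSpan K L (Set.range X) = ⊤) :
    Submodule.span K {y : L | ∃ (l : List (ι × K)) (i : ι), y = pr K N (fun i => ad K L (X i)) l (X i)} = ⊤ := by
  set S := Submodule.span K
    {y : L | ∃ (l : List (ι × K)) (i : ι), y = pr K N (fun i => ad K L (X i)) l (X i)} with hS
  have hst : ∀ (i : ι) (c : K), ∀ x ∈ S, ex K N (c • ad K L (X i)) x ∈ S := by
    intro i c y hy
    rw [hS] at hy ⊢
    induction hy using Submodule.span_induction with
    | mem y hy =>
      obtain ⟨l, j, rfl⟩ := hy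
      apply Submodule.subset_span
      refine ⟨(i, c) :: l, j, ?_⟩
      rw [pr_cons', Module.End.mul_apply]
    | zero =>
      rw [map_zero]
      exact Submodule.zero_mem _
    | add a b _ _ ha hb =>
      rw [map_add]
      exact Submodule.add_mem _ ha hb
    | smul r a _ ha =>
      rw [map_smul]
      exact Submodule.smul_mem _ _ ha
  let P : LieSubalgebra K L :=
    { S with
      lie_mem' := by
        intro a b _ hb
        exact stable_ad N hN X hX hg S hst a b hb }
  have h1 : LieSubalgebra.lieSpan K L (Set.range X) ≤ P := by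
    rw [LieSubalgebra.lieSpan_le]
    rintro _ ⟨i, rfl⟩
    show X i ∈ S
    rw [hS]
    apply Submodule.subset_span
    refine ⟨[], i, ?_⟩
    simp [pr]
  rw [eq_top_iff]
  intro z _
  have h2 : z ∈ P := by
    apply h1
    rw [hg]
    exact LieSubalgebra.mem_top z
  exact h2

end Pool.Agent.Helper40.TF
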