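import Pool.Agent.Helper40.TF.AssocMain
import Pool.Agent.Helper40.TF.Log
import Pool.Agent.Helper40.TF.GrpRel
import Pool.Agent.Helper40.TF.UniGrp
import Pool.Agent.Helper40.TF.ActClass
import Pool.Agent.Helper40.TF.RatRep
import Pool.Agent.Helper45.Eng.Uniform

/-!
PROJECT TF, module TF-29. Torsion-free nilpotent groups.

Let `k` be the number of `assoc_bound d n n`, enlarged to `k + 1` (products of `k + 1` operators vanish as well), `c = 2 (k + 1) - 1`. `G`, `x` as in the statement. `exists_self_centralizing` (Helper45/Eng/Uniform) gives `A` normal, abelian, `C_G(A) = A`. `B = Additive A` (with `CommGroup A`), torsion-free. `exists_rat` gives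
`V, Φ`. `R : G →* Module.End ℤ B`, `R g a = g a g⁻¹` (compare the proof of `Results/MP_629dac_al/BoundedRank.lean`), `ρ = Φ ∘ R : G →* Module.End ℚ V`.
* `(R (x i) - 1) ^ n = 0`: for `a ∈ A` the Engel iterate of `a` with `x = x i`: `a⁻¹ x⁻¹ a x = (R x⁻¹ - 1) a`, so `(R x⁻¹ - 1) ^ n = 0` and `(R x - 1) ^ n = (-1)^n R x ^ n (R x⁻¹ - 1) ^ n = 0`. So `(ρ (x i) - 1) ^ n = 0` and `exists_log` gives `T i` with `T i ^ n = 0`, `ex ℚ n (T i) = ρ (x i)`.
* `erel_of_group`: `ERel ℚ n n T (T i)`. `assoc_bound`: products of `k` (so of `k+1`) operators `T i` vanish. `uni_prod`: products of `k + 1` operators `ρ g - 1` vanish, so (`Φ` injective ring homomorphism) products of `k + 1` operators `R g - 1` vanish on `B`, i.e. `cm l a = 1` for `l` of length `k + 1`, `a ∈ A`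
(`cm (g :: l) a = ⁅g, cm l a⁆` corresponds to `(R g - 1) (..)`; all `cm l a ∈ A`). `upper_of_act` gives `upperCentralSeries G (2 (k+1) - 1) = ⊤`, so `nilpotencyClass G ≤ c` (`Group.nilpotencyClass` is the least such number).
-/

set_option autoImplicit false

namespace Pool.Agent.Helper40.TF

open scoped commutatorElement

open Pool.Agent.Helper45.Eng in
theorem tf_bound (n d : ℕ) (hn : 2 ≤ n) : ∃ c : ℕ, ∀ (G : Type) [Group G] [Group.IsNilpotent G] (x : Fin d → G),
    Subgroup.closure (Set.range x) = ⊤ →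
    (∀ i, ∀ z : G, (fun z : G => z⁻¹ * (x i)⁻¹ * z * x i)^[n] z = 1) →
    (∀ (k : ℕ) (z : G), 0 < k → z ^ k = 1 → z = 1) → Group.nilpotencyClass G ≤ c := by
  obtain ⟨k, hk⟩ := assoc_bound d n n (by omega) hn
  refine ⟨2 * (k + 1) - 1, ?_⟩
  intro G _ _ x hx hE htf
  obtain ⟨A, hAn, hAc, hAs⟩ := exists_self_centralizing (G := G)
  let _ : CommGroup A :=
    { (inferInstance : Group A) with
      mul_comm := fun a b => Subtype.ext (hAc a a.2 b b.2) }
  let R : G →* Module.End ℤ (Additive A) :=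
    { toFun := fun g =>
        { toFun := fun a => Additive.ofMul (MulAut.conjNormal g (Additive.toMul a) : A)
          map_add' := fun a b => by
            change Additive.ofMul (MulAut.conjNormal g (Additive.toMul a * Additive.toMul b : A)) = _
            rw [map_mul]; rfl
          map_smul' := fun k a => by
            change Additive.ofMul (MulAut.conjNormal g ((Additive.toMul a : A) ^ k)) =
              Additive.ofMul ((MulAut.conjNormal g (Additive.toMul a : A)) ^ k)
            rw [map_zpow] }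
      map_one' := by
        ext a
        change ((MulAut.conjNormal (1 : G) (Additive.toMul a) : A) : G) = _
        simp
      map_mul' := fun g h => by
        ext a
        change ((MulAut.conjNormal (g * h) (Additive.toMul a) : A) : G) = _
        rw [map_mul]; rfl }
  -- one application of `R g - 1`
  have hone : ∀ (g : G) (a : A), ∃ h : ⁅g, (a : G)⁆ ∈ A,
      (R g - 1) (Additive.ofMul a) = Additive.ofMul (⟨⁅g, (a : G)⁆, h⟩ : A) := by
    intro g a
    have h1 : ⁅g, (a : G)⁆ = ((MulAut.conjNormal g a : A) : G) * (a : G)⁻¹ := by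
      rw [MulAut.conjNormal_apply, commutatorElement_def]
    have h : ⁅g, (a : G)⁆ ∈ A := by
      rw [h1]; exact A.mul_mem (MulAut.conjNormal g a : A).2 (A.inv_mem a.2)
    refine ⟨h, ?_⟩
    have h2 : (⟨⁅g, (a : G)⁆, h⟩ : A) = (MulAut.conjNormal g a : A) * a⁻¹ := Subtype.ext h1
    rw [h2]
    change Additive.ofMul (MulAut.conjNormal g a : A) - Additive.ofMul a = _
    rw [ofMul_mul, ofMul_inv, sub_eq_add_neg]
  have hcm : ∀ (l : List G) (a : A), ∃ h : cm l (a : G) ∈ A,
      ((l.map fun g => R g - 1).prod) (Additive.ofMul a) = Additive.ofMul (⟨cm l (a : G), h⟩ : A) := by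
    intro l
    induction l with
    | nil => intro a; exact ⟨a.2, rfl⟩
    | cons g l ih =>
      intro a
      obtain ⟨h, h'⟩ := ih a
      obtain ⟨h1, h1'⟩ := hone g ⟨cm l (a : G), h⟩
      refine ⟨h1, ?_⟩
      rw [List.map_cons, List.prod_cons, Module.End.mul_apply, h', h1']
      rfl
  -- the Engel iterates
  have hit : ∀ (i : Fin d) (j : ℕ) (a : A), ∃ h : (fun z : G => z⁻¹ * (x i)⁻¹ * z * x i)^[j] (a : G) ∈ A,
      ((R (x i)⁻¹ - 1) ^ j) (Additive.ofMul a) =
        Additive.ofMul (⟨(fun z : G => z⁻¹ * (x i)⁻¹ * z * x i)^[j] (a : G), h⟩ : A) := by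
    intro i j
    induction j with
    | zero => intro a; exact ⟨a.2, rfl⟩
    | succ j ih =>
      intro a
      obtain ⟨h, h'⟩ := ih a
      obtain ⟨h1, h1'⟩ := hone (x i)⁻¹ ⟨_, h⟩
      have h2 : (fun z : G => z⁻¹ * (x i)⁻¹ * z * x i)^[j + 1] (a : G) =
          ⁅(x i)⁻¹, (fun z : G => z⁻¹ * (x i)⁻¹ * z * x i)^[j] (a : G)⁆ := by
        rw [Function.iterate_succ_apply', commutatorElement_def, inv_inv]
        set z := (fun z : G => z⁻¹ * (x i)⁻¹ * z * x i)^[j] (a : G) with hz
        have hcz : (x i)⁻¹ * z * x i ∈ A := by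
          have := hAn.conj_mem z h (x i)⁻¹
          rwa [inv_inv] at this
        have h3 := hAc z⁻¹ (A.inv_mem h) _ hcz
        calc z⁻¹ * (x i)⁻¹ * z * x i = z⁻¹ * ((x i)⁻¹ * z * x i) := by group
          _ = (x i)⁻¹ * z * x i * z⁻¹ := h3
      refine ⟨by rw [h2]; exact h1, ?_⟩
      rw [pow_succ', Module.End.mul_apply, h', h1']
      exact congrArg Additive.ofMul (Subtype.ext h2.symm)
  have hRinv : ∀ i, (R (x i)⁻¹ - 1) ^ n = 0 := by
    intro i
    ext a
    obtain ⟨h, h'⟩ := hit i n (Additive.toMul a)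
    have h2 : (⟨(fun z : G => z⁻¹ * (x i)⁻¹ * z * x i)^[n] ((Additive.toMul a : A) : G), h⟩ : A) = 1 :=
      Subtype.ext (hE i _)
    rw [h2] at h'
    have h3 : ((R (x i)⁻¹ - 1) ^ n) a = 0 := h'
    rw [h3]; rfl
  have hRn : ∀ i, (R (x i) - 1) ^ n = 0 := by
    intro i
    have h1 : R (x i) * R (x i)⁻¹ = 1 := by rw [← map_mul, mul_inv_cancel, map_one]
    have h1' : R (x i)⁻¹ * R (x i) = 1 := by rw [← map_mul, inv_mul_cancel, map_one]
    have h2 : R (x i) - 1 = -(R (x i) * (R (x i)⁻¹ - 1)) := by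
      rw [mul_sub, h1, mul_one]; abel
    have h3 : Commute (R (x i)) (R (x i)⁻¹ - 1) := by
      change R (x i) * (R (x i)⁻¹ - 1) = (R (x i)⁻¹ - 1) * R (x i)
      rw [mul_sub, sub_mul, h1, h1', mul_one, one_mul]
    rw [h2, neg_pow, h3.mul_pow, hRinv i, mul_zero, mul_zero]
  -- rationalisation
  obtain ⟨V, iV1, iV2, Φ, hΦ⟩ := exists_rat (Additive A) (by
    intro j b hj hb
    have h1 : (Additive.toMul b : A) ^ j = 1 := hb
    have h2 : ((Additive.toMul b : A) : G) ^ j = 1 := by
      have := congrArg (fun t : A => (t : G)) h1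
      simpa using this
    have h3 := htf j _ hj h2
    have h4 : (Additive.toMul b : A) = 1 := Subtype.ext h3
    exact h4)
  let ρ : G →* Module.End ℚ V := (Φ : Module.End ℤ (Additive A) →* Module.End ℚ V).comp R
  have hρ : ∀ g, ρ g = Φ (R g) := fun g => rfl
  have hρn : ∀ i, (ρ (x i) - 1) ^ n = 0 := by
    intro i
    rw [hρ, ← map_one Φ, ← map_sub, ← map_pow, hRn i, map_zero]
  choose T hTn hTe using fun i => exists_log (K := ℚ) n (by omega) (ρ (x i)) (hρn i)
  have hER : ∀ i, ERel ℚ n n T (T i) :=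
    erel_of_group n n (by omega) (by omega) T hTn x ρ (fun i => (hTe i).symm) hE
  have hprod := hk V T hTn hER
  have hprod' : ∀ l : List (Fin d), l.length = k + 1 → (l.map T).prod = 0 := by
    intro l hl
    cases l with
    | nil => simp at hl
    | cons a l =>
      rw [List.map_cons, List.prod_cons, hprod l (by simpa using hl), mul_zero]
  have huni := uni_prod n (k + 1) (by omega) (by omega) T hTn x hx ρ (fun i => (hTe i).symm) hprod'
  have hR : ∀ l : List G, l.length = k + 1 → (l.map fun g => R g - 1).prod = 0 := by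
    intro l hl
    apply hΦ
    rw [map_zero, map_list_prod, List.map_map, ← huni l hl]
    congr 1
    apply List.map_congr_left
    intro g _
    change Φ (R g - 1) = ρ g - 1
    rw [map_sub, map_one, hρ]
  have hfin := upper_of_act A hAn hAc hAs (k + 1) (by omega) (by
    intro l hl a ha
    obtain ⟨h, h'⟩ := hcm l ⟨a, ha⟩
    rw [hR l hl] at h'
    have h2 : (⟨cm l a, h⟩ : A) = 1 := by
      have h3 : Additive.ofMul (⟨cm l a, h⟩ : A) = Additive.ofMul (1 : A) := h'.symm
      exact h3
    exact congrArg (fun t : A => (t : G)) h2)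
  exact Subgroup.upperCentralSeries_eq_top_iff_nilpotencyClass_le.mp hfin

end Pool.Agent.Helper40.TF
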