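import Pool.Agent.Helper40.KZ.Gen

/-!
PROJECT TF, module TF-14. Just non-nilpotent quotients.

`lowerCentralSeries K L L k ≤ I` says that `L / I` is nilpotent of class `≤ k`. `op T w = (w.map T).prod`.
`span_words`: the span `S` of all `op (ad ∘ X) w (X j)` is stable under `ad (X i)` (`op (i :: w) = ad (X i) * op w`), and the set of `z` with `⁅z, S⁆ ⊆ S` is a Lie subalgebra containing all `X i`, so everything; so `S` is a Lie subalgebra containing all `X j = op [] (X j)`: `S = ⊤`.
`lcs_of_words`: by `lcs_le` (KZ/Gen) an element of `lcs k` is in the span of `op w y`, `w.length = k`, and by `span_words` `y` is a combination of `op u (X j)`; `op w (op u (X j)) = op (w ++ u) (X j)`, and `w ++ u = p ++ q` with `q.length = k` (last `k` letters), so it is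
`op p (op q (X j)) ∈ I`, because `I` is an ideal (`op p` is a product of `ad`s).
`exists_jnn`: Zorn (`zorn_le_nonempty₀` or `zorn_le₀`) for the set of ideals `I` with `¬ ∃ k, lcs k ≤ I` (it contains `⊥`). For a nonempty chain `C` let `I₀ = sSup C`; its elements are in some member of the chain (directed). If `lcs k ≤ I₀` then the finitely many elements `op w (X j)`
(`w.length = k`, `ι` finite; they are in `lcs k`) are all in one member `I` of `C`, so `lcs k ≤ I` by `lcs_of_words`, contradiction.
-/

set_option autoImplicit false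

namespace Pool.Agent.Helper40.TF

open LieAlgebra Pool.Agent.Helper40.KZ

variable {K L ι : Type*} [Field K] [LieRing L] [LieAlgebra K L]

private theorem op_append' {A : Type*} [Monoid A] (a : ι → A) (u v : List ι) :
    op a (u ++ v) = op a u * op a v := by
  simp [op]

private theorem op_cons' {A : Type*} [Monoid A] (a : ι → A) (i : ι) (v : List ι) :
    op a (i :: v) = a i * op a v := by
  simp [op]

private theorem op_mem_stable (f : ι → Module.End K L) (S : Submodule K L)
    (h : ∀ i, ∀ s ∈ S, f i s ∈ S) (w : List ι) (s : L) (hs : s ∈ S) : op f w s ∈ S := by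
  induction w with
  | nil => simpa [op] using hs
  | cons i w ih =>
    rw [op_cons']
    exact h i _ ih

theorem span_words (X : ι → L) (hg : LieSubalgebra.lieSpan K L (Set.range X) = ⊤) :
    Submodule.span K {z : L | ∃ (w : List ι) (j : ι), z = op (fun i => ad K L (X i)) w (X j)} = ⊤ := by
  obtain ⟨S, hS⟩ : ∃ S, S = Submodule.span K
    {z : L | ∃ (w : List ι) (j : ι), z = op (fun i => ad K L (X i)) w (X j)} := ⟨_, rfl⟩
  rw [← hS]
  have h1 : ∀ i, ∀ s ∈ S, ad K L (X i) s ∈ S := by
    intro i s hs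
    rw [hS] at hs ⊢
    induction hs using Submodule.span_induction with
    | mem s hs =>
      obtain ⟨w, j, rfl⟩ := hs
      refine Submodule.subset_span ⟨i :: w, j, ?_⟩
      rw [op_cons']
      rfl
    | zero => rw [map_zero]; exact zero_mem _
    | add n m _ _ h1 h2 => rw [map_add]; exact add_mem h1 h2
    | smul c n _ h1 => rw [map_smul]; exact Submodule.smul_mem _ _ h1
  have h2 : ∀ z : L, ∀ s ∈ S, ad K L z s ∈ S := by
    intro z s hs
    have h3 := ad_mem_span X hg z
    generalize ad K L z = x at h3 ⊢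
    induction h3 using Submodule.span_induction with
    | mem x hx =>
      obtain ⟨w, _, rfl⟩ := hx
      exact op_mem_stable _ S h1 w s hs
    | zero => exact zero_mem _
    | add x y _ _ hx hy => exact add_mem hx hy
    | smul c x _ hx => exact Submodule.smul_mem _ _ hx
  obtain ⟨T, hT⟩ : ∃ T : LieSubalgebra K L, ∀ z, z ∈ T ↔ z ∈ S :=
    ⟨{ S with lie_mem' := fun {x y} _ hy => h2 x y hy }, fun z => Iff.rfl⟩
  have h4 : LieSubalgebra.lieSpan K L (Set.range X) ≤ T := by
    rw [LieSubalgebra.lieSpan_le]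
    rintro _ ⟨i, rfl⟩
    refine (hT (X i)).2 ?_
    rw [hS]
    exact Submodule.subset_span ⟨[], i, by simp [op]⟩
  rw [hg] at h4
  rw [eq_top_iff]
  intro z _
  exact (hT z).1 (h4 (LieSubalgebra.mem_top z))

private theorem op_mem_ideal (X : ι → L) (I : LieIdeal K L) (w : List ι) (s : L) (hs : s ∈ I) :
    op (fun i => ad K L (X i)) w s ∈ I := by
  induction w with
  | nil => simpa [op] using hs
  | cons i w ih =>
    rw [op_cons']
    exact lie_mem_right K L I (X i) _ ih

theorem lcs_of_words (X : ι → L) (hg : LieSubalgebra.lieSpan K L (Set.range X) = ⊤) (I : LieIdeal K L) (k : ℕ)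
    (h : ∀ w : List ι, w.length = k → ∀ j, op (fun i => ad K L (X i)) w (X j) ∈ I) :
    LieModule.lowerCentralSeries K L L k ≤ I := by
  intro z hz
  have h1 := lcs_le X hg k z hz
  have h2 : ∀ (w : List ι) (y : L), w.length = k → op (fun i => ad K L (X i)) w y ∈ I := by
    intro w y hw
    have hy : y ∈ Submodule.span K
        {z : L | ∃ (w : List ι) (j : ι), z = op (fun i => ad K L (X i)) w (X j)} := by
      rw [span_words X hg]
      exact Submodule.mem_top
    induction hy using Submodule.span_induction with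
    | mem y hy =>
      obtain ⟨u, j, rfl⟩ := hy
      have h3 : op (fun i => ad K L (X i)) w (op (fun i => ad K L (X i)) u (X j)) =
          op (fun i => ad K L (X i)) (w ++ u) (X j) := by
        rw [op_append']
        rfl
      have h4 : op (fun i => ad K L (X i)) (w ++ u) =
          op (fun i => ad K L (X i)) ((w ++ u).take ((w ++ u).length - k)) *
          op (fun i => ad K L (X i)) ((w ++ u).drop ((w ++ u).length - k)) := by
        rw [← op_append', List.take_append_drop]
      rw [h3, h4]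
      refine op_mem_ideal X I _ _ (h _ ?_ j)
      rw [List.length_drop, List.length_append, hw]
      omega
    | zero => rw [map_zero]; exact zero_mem _
    | add n m _ _ h1 h2 => rw [map_add]; exact add_mem h1 h2
    | smul c n _ h1 => rw [map_smul]; exact I.toSubmodule.smul_mem _ h1
  have h3 : Submodule.span K {x | ∃ (w : List ι) (y : L), w.length = k ∧
      x = op (fun i => ad K L (X i)) w y} ≤ I.toSubmodule := by
    rw [Submodule.span_le]
    rintro _ ⟨w, y, hw, rfl⟩
    exact h2 w y hw
  exact h3 h1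

private theorem op_mem_lcs (X : ι → L) (w : List ι) (y : L) :
    op (fun i => ad K L (X i)) w y ∈ LieModule.lowerCentralSeries K L L w.length := by
  induction w with
  | nil => simp [op]
  | cons i w ih =>
    rw [op_cons', List.length_cons, LieModule.lowerCentralSeries_succ]
    exact LieSubmodule.lie_mem_lie (LieSubmodule.mem_top (X i)) ih

private theorem mem_of_chain (c : Set (LieIdeal K L)) (hc : IsChain (· ≤ ·) c) (hne : c.Nonempty)
    (T : Set L) (hT : T.Finite) (h : ∀ t ∈ T, ∃ I ∈ c, t ∈ I) : ∃ I ∈ c, ∀ t ∈ T, t ∈ I := by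
  induction T, hT using Set.Finite.induction_on with
  | empty =>
    obtain ⟨I, hI⟩ := hne
    exact ⟨I, hI, fun t ht => ht.elim⟩
  | insert _ _ ih =>
    obtain ⟨I, hI, h1⟩ := ih fun t ht => h t (Set.mem_insert_of_mem _ ht)
    obtain ⟨J, hJ, h2⟩ := h _ (Set.mem_insert _ _)
    rcases hc.total hI hJ with h3 | h3
    · refine ⟨J, hJ, fun t ht => ?_⟩
      rcases ht with rfl | ht
      · exact h2
      · exact h3 (h1 t ht)
    · refine ⟨I, hI, fun t ht => ?_⟩
      rcases ht with rfl | ht
      · exact h3 h2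
      · exact h1 t ht

private theorem mem_sSup_chain (c : Set (LieIdeal K L)) (hc : IsChain (· ≤ ·) c) (hne : c.Nonempty)
    (t : L) (ht : t ∈ sSup c) : ∃ I ∈ c, t ∈ I := by
  have h1 : t ∈ (sSup c).toSubmodule := ht
  rw [LieSubmodule.sSup_toSubmodule] at h1
  have hne' : {x : Submodule K L | ∃ s ∈ c, s.toSubmodule = x}.Nonempty := by
    obtain ⟨I, hI⟩ := hne
    exact ⟨I.toSubmodule, I, hI, rfl⟩
  have hdir : DirectedOn (· ≤ ·) {x : Submodule K L | ∃ s ∈ c, s.toSubmodule = x} := by
    rintro _ ⟨I, hI, rfl⟩ _ ⟨J, hJ, rfl⟩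
    rcases hc.total hI hJ with h3 | h3
    · exact ⟨J.toSubmodule, ⟨J, hJ, rfl⟩, h3, le_rfl⟩
    · exact ⟨I.toSubmodule, ⟨I, hI, rfl⟩, le_rfl, h3⟩
  obtain ⟨_, ⟨I, hI, rfl⟩, h2⟩ := (Submodule.mem_sSup_of_directed hne' hdir).1 h1
  exact ⟨I, hI, h2⟩

theorem exists_jnn [Finite ι] (X : ι → L) (hg : LieSubalgebra.lieSpan K L (Set.range X) = ⊤)
    (h : ¬ ∃ k, LieModule.lowerCentralSeries K L L k = ⊥) :
    ∃ I : LieIdeal K L, (¬ ∃ k, LieModule.lowerCentralSeries K L L k ≤ I) ∧
      ∀ J : LieIdeal K L, I < J → ∃ k, LieModule.lowerCentralSeries K L L k ≤ J := by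
  have hz := zorn_le_nonempty₀ {I : LieIdeal K L | ¬ ∃ k, LieModule.lowerCentralSeries K L L k ≤ I}
    (fun c hcs hc y hy => ⟨sSup c, ?_, fun z hz => le_sSup hz⟩) ⊥
    (fun ⟨k, hk⟩ => h ⟨k, le_bot_iff.1 hk⟩)
  · obtain ⟨I, _, hI⟩ := hz
    refine ⟨I, hI.prop, fun J hJ => ?_⟩
    by_contra h1
    exact hI.not_prop_of_gt hJ h1
  · rintro ⟨k, hk⟩
    have hfin : {t : L | ∃ w : List ι, w.length = k ∧ ∃ j, t = op (fun i => ad K L (X i)) w (X j)}.Finite := by
      refine ((List.finite_length_eq ι k).image2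
        (fun w j => op (fun i => ad K L (X i)) w (X j)) (Set.finite_univ (α := ι))).subset ?_
      rintro _ ⟨w, hw, j, rfl⟩
      exact ⟨w, hw, j, Set.mem_univ j, rfl⟩
    obtain ⟨I, hI, h1⟩ := mem_of_chain c hc ⟨y, hy⟩ _ hfin (by
      rintro _ ⟨w, hw, j, rfl⟩
      refine mem_sSup_chain c hc ⟨y, hy⟩ _ (hk ?_)
      rw [← hw]
      exact op_mem_lcs X w (X j))
    exact hcs hI ⟨k, lcs_of_words X hg I k fun w hw j => h1 _ ⟨w, hw, j, rfl⟩⟩

end Pool.Agent.Helper40.TF
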